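import Mathlib
import Pool.Agent.Helper669.Forcing

/-!
# Long chains in a power set: the combinatorial statement and its forcing translation
-/

set_option autoImplicit false

namespace Pool.Agent.TH785.WC

open Cardinal Pool.Agent.Helper669.Forcing

universe u v w

/-- The combinatorial statement about three sets `K`, `X`, `L`.  It says that `K` has the size of
the continuum, that there are at least `|X|` many subsets of `K`, that no family of pairwise
different subsets of `K` indexed by `X` is linearly ordered by inclusion, that `L` is larger than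
`K`, and that `X` is not the union of `L` many sets of size less than `|X|`. -/
structure NoLongChain (K X L : Type) : Prop where
  /-- `K` can be mapped onto the power set of `ℕ` -/
  real_onto : ∃ e : K → Set ℕ, ∀ z : Set ℕ, ∃ k, e k = z
  /-- `K` can be mapped injectively into the power set of `ℕ` -/
  real_inj : ∃ e : K → Set ℕ, ∀ k k', k ≠ k' → e k ≠ e k'
  /-- `X` can be mapped injectively into the power set of `K` -/
  pow_inj : ∃ a : X → Set K, ∀ x x', x ≠ x' → a x ≠ a x'
  /-- the power set of `K` has no chain indexed by `X` -/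
  no_chain : ∀ A : X → Set K, (∀ x x', x ≠ x' → A x ≠ A x') →
    ¬ ∀ x x', A x ⊆ A x' ∨ A x' ⊆ A x
  /-- `L` cannot be mapped injectively into `K` -/
  large : ¬ ∃ h : L → K, ∀ l l', h l = h l' → l = l'
  /-- every function from `X` to `L` is constant on a set of the size of `X` -/
  fiber : ∀ h : X → L, ∃ l, ∃ f : X → X, (∀ x x', f x = f x' → x = x') ∧ ∀ x, h (f x) = l

section

variable {P : Type u} [Preorder P]

/-- The subset of `Y` named by `A` is contained in the one named by `B`. -/
def Sub {Y : Type v} (A B : Y → Set P) : Set P := fall fun y => fimp (meets (A y)) (meets (B y))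

/-- The subsets of `Y` named by `A` and `B` are equal. -/
def Same {Y : Type v} (A B : Y → Set P) : Set P := fand (Sub A B) (Sub B A)

/-- `φ or ψ` is `not (not φ and not ψ)`. -/
def for' (φ ψ : Set P) : Set P := fnot (fand (fnot φ) (fnot ψ))

/-- The forcing translation of `NoLongChain K X L`, clause by clause. -/
def NoLongChainN (P : Type u) [Preorder P] (K X L : Type v) : Set P :=
  fand (fex fun e : K → ℕ → Set P => fall fun z : ℕ → Set P => fex fun k => Same (e k) z) <|
  fand (fex fun e : K → ℕ → Set P => fall fun k => fall fun k' => fall fun _ : k ≠ k' =>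
    fnot (Same (e k) (e k'))) <|
  fand (fex fun a : X → K → Set P => fall fun x => fall fun x' => fall fun _ : x ≠ x' =>
    fnot (Same (a x) (a x'))) <|
  fand (fall fun A : X → K → Set P =>
    fimp (fall fun x => fall fun x' => fall fun _ : x ≠ x' => fnot (Same (A x) (A x')))
      (fnot (fall fun x => fall fun x' => for' (Sub (A x) (A x')) (Sub (A x') (A x))))) <|
  fand (fnot (fex fun R : L → K → Set P => fand (IsFun R) (IsInj R)))
    (fall fun R : X → L → Set P => fimp (IsFun R) (fex fun l => FullSize fun x => meets (R x l)))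

theorem down_Sub {Y : Type v} (A B : Y → Set P) : Down (Sub A B) :=
  down_fall fun _ => down_fimp _ _

theorem down_Same {Y : Type v} (A B : Y → Set P) : Down (Same A B) :=
  down_fand (down_Sub A B) (down_Sub B A)

theorem down_for (φ ψ : Set P) : Down (for' φ ψ) := down_fnot _

theorem mem_for {φ ψ : Set P} {p : P} :
    p ∈ for' φ ψ ↔ ∀ q ≤ p, ∃ r ≤ q, r ∈ φ ∨ r ∈ ψ := by
  simp only [for', fnot, fand, Set.mem_ofPred_eq, not_and, not_forall, not_not]
  constructor
  · intro h q hq
    by_cases h1 : ∃ r, ∃ _ : r ≤ q, r ∈ φ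
    · obtain ⟨r, hr, h'⟩ := h1
      exact ⟨r, hr, Or.inl h'⟩
    · obtain ⟨r, hr, h'⟩ := h q hq (by
        intro r hr hφ
        exact h1 ⟨r, hr, hφ⟩)
      exact ⟨r, hr, Or.inr h'⟩
  · intro h q hq h1
    obtain ⟨r, hr, h' | h'⟩ := h q hq
    · exact absurd h' (h1 r hr)
    · exact ⟨r, hr, h'⟩

/-- forcing `meets` is decided by density -/
theorem meets_of_dense {N : Set P} {p : P} (h : ∀ q ≤ p, ∃ r ≤ q, r ∈ meets N) : p ∈ meets N := by
  intro q hq
  obtain ⟨r, hr, h'⟩ := h q hq
  obtain ⟨r', hr', s, hs, hle⟩ := h' r le_rfl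
  exact ⟨r', hr'.trans hr, s, hs, hle⟩

theorem mem_Sub {Y : Type v} {A B : Y → Set P} {p : P} :
    p ∈ Sub A B ↔ ∀ y, ∀ q ≤ p, q ∈ meets (A y) → q ∈ meets (B y) := by
  constructor
  · intro h y q hq hA
    refine meets_of_dense fun r hr => ?_
    obtain ⟨r', hr', h'⟩ := mem_fimp.1 (h y) r (hr.trans hq) (down_meets _ _ hA _ hr)
    exact ⟨r', hr', h'⟩
  · intro h y
    exact mem_fimp.2 fun q hq hA => ⟨q, le_rfl, h y q hq hA⟩

theorem mem_Same {Y : Type v} {A B : Y → Set P} {p : P} :
    p ∈ Same A B ↔ ∀ y, ∀ q ≤ p, (q ∈ meets (A y) ↔ q ∈ meets (B y)) := by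
  constructor
  · intro h y q hq
    exact ⟨mem_Sub.1 h.1 y q hq, mem_Sub.1 h.2 y q hq⟩
  · intro h
    exact ⟨mem_Sub.2 fun y q hq => (h y q hq).1, mem_Sub.2 fun y q hq => (h y q hq).2⟩

/-- deciding a membership -/
theorem meets_or (N : Set P) (p : P) : ∃ q ≤ p, q ∈ meets N ∨ q ∈ fnot (meets N) := by
  by_cases h : p ∈ fnot (meets N)
  · exact ⟨p, le_rfl, Or.inr h⟩
  · simp only [fnot, Set.mem_ofPred_eq, not_forall, not_not] at h
    obtain ⟨q, hq, h'⟩ := h
    exact ⟨q, hq, Or.inl h'⟩

theorem not_meets_of_fnot {N : Set P} {p : P} (h : p ∈ fnot (meets N)) : p ∉ meets N :=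
  h p le_rfl

/-- two names which are not forced to be equal differ at some point -/
theorem exists_diff {Y : Type v} {A B : Y → Set P} {p : P} (h : p ∉ Same A B) :
    ∃ y, ∃ q ≤ p, (q ∈ meets (A y) ∧ q ∈ fnot (meets (B y))) ∨
      (q ∈ meets (B y) ∧ q ∈ fnot (meets (A y))) := by
  by_contra hcon
  push Not at hcon
  apply h
  rw [mem_Same]
  intro y q hq
  constructor
  · intro hA
    refine meets_of_dense fun r hr => ?_
    obtain ⟨r', hr', h' | h'⟩ := meets_or (B y) r
    · exact ⟨r', hr', h'⟩
    · exact absurd h' ((hcon y r' (hr'.trans (hr.trans hq))).1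
        (down_meets _ _ hA _ (hr'.trans hr)))
  · intro hB
    refine meets_of_dense fun r hr => ?_
    obtain ⟨r', hr', h' | h'⟩ := meets_or (A y) r
    · exact ⟨r', hr', h'⟩
    · exact absurd h' ((hcon y r' (hr'.trans (hr.trans hq))).2
        (down_meets _ _ hB _ (hr'.trans hr)))

theorem mem_fnot_Same {Y : Type v} {A B : Y → Set P} {p : P}
    (h : ∀ q ≤ p, ∃ y, ∃ r ≤ q, (r ∈ meets (A y) ∧ r ∈ fnot (meets (B y))) ∨
      (r ∈ meets (B y) ∧ r ∈ fnot (meets (A y)))) : p ∈ fnot (Same A B) := by
  intro q hq hs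
  obtain ⟨y, r, hr, h' | h'⟩ := h q hq
  · exact not_meets_of_fnot h'.2 ((mem_Same.1 hs y r hr).1 h'.1)
  · exact not_meets_of_fnot h'.2 ((mem_Same.1 hs y r hr).2 h'.1)

end

end Pool.Agent.TH785.WC
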