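import Mathlib
import Pool.Agent.H190R3.WeiSucc
import Pool.Agent.TH785.WC.Defs

/-!
# The combinatorial statement bounds the sizes of the chains of Weihrauch degrees
-/

set_option autoImplicit false

namespace Pool.Agent.TH785.WC

open Cardinal Set
open Pool.Agent.H190R3.Wei

theorem card_K_le {K X L : Type} (h : NoLongChain K X L) : #K ≤ 𝔠 := by
  obtain ⟨e, he⟩ := h.real_inj
  have h1 : #K ≤ #(Set ℕ) := Cardinal.mk_le_of_injective (f := e) fun k k' heq => by
    by_contra hne
    exact he k k' hne heq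
  rwa [Cardinal.mk_set, Cardinal.mk_nat, Cardinal.two_power_aleph0] at h1

theorem le_card_K {K X L : Type} (h : NoLongChain K X L) : 𝔠 ≤ #K := by
  obtain ⟨e, he⟩ := h.real_onto
  have h1 : #(Set ℕ) ≤ #K := Cardinal.mk_le_of_surjective (f := e) he
  rwa [Cardinal.mk_set, Cardinal.mk_nat, Cardinal.two_power_aleph0] at h1

theorem card_X_le {K X L : Type} (h : NoLongChain K X L) : #X ≤ 2 ^ 𝔠 := by
  obtain ⟨a, ha⟩ := h.pow_inj
  have h1 : #X ≤ #(Set K) := Cardinal.mk_le_of_injective (f := a) fun x x' heq => by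
    by_contra hne
    exact ha x x' hne heq
  rw [Cardinal.mk_set] at h1
  exact h1.trans (Cardinal.power_le_power_left two_ne_zero (card_K_le h))

theorem card_K_lt {K X L : Type} (h : NoLongChain K X L) : #K < #L := by
  by_contra hcon
  rw [not_lt] at hcon
  obtain ⟨⟨f, hf⟩⟩ := hcon
  exact h.large ⟨f, fun l l' heq => hf heq⟩

theorem succ_le_L {K X L : Type} (h : NoLongChain K X L) : Order.succ 𝔠 ≤ #L :=
  Order.succ_le_of_lt ((le_card_K h).trans_lt (card_K_lt h))

theorem card_L_lt {K X L : Type} (h : NoLongChain K X L) : #L < #X := by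
  by_contra hcon
  rw [not_lt] at hcon
  obtain ⟨⟨g, hg⟩⟩ := hcon
  obtain ⟨l, f, hf, hfl⟩ := h.fiber g
  have hsub : ∀ x x' : X, x = x' := fun x x' => hf x x' (hg ((hfl x).trans (hfl x').symm))
  refine h.no_chain (fun _ => ∅) (fun x x' hne => absurd (hsub x x') hne) fun x x' => ?_
  exact Or.inl subset_rfl

theorem lt_cof {K X L : Type} (h : NoLongChain K X L) : #L < (#X).ord.cof := by
  classical
  have hinf : ℵ₀ ≤ #X :=
    (aleph0_le_continuum.trans (le_card_K h)).trans ((card_K_lt h).le.trans (card_L_lt h).le)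
  by_contra hcon
  rw [not_lt] at hcon
  let T := (#X).ord.ToType
  have hT : #T = #X := Cardinal.mk_ord_toType _
  obtain ⟨s, hs, hcard⟩ := Order.exists_cof_eq (α := T)
  rw [Ordinal.cof_toType] at hcard
  rw [← hcard] at hcon
  obtain ⟨⟨g, hg⟩⟩ := hcon
  have hcofinal : ∀ t : T, ∃ c : s, t ≤ (c : T) := by
    intro t
    obtain ⟨c, hc, hle⟩ := hs t
    exact ⟨⟨c, hc⟩, hle⟩
  choose c hc using hcofinal
  obtain ⟨q⟩ : Nonempty (X ≃ T) := by rw [← Cardinal.eq, hT]
  obtain ⟨l, f, hf, hfl⟩ := h.fiber (fun x => g (c (q x)))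
  by_cases hX : Nonempty X
  · obtain ⟨x0⟩ := hX
    have hle : ∀ x, q (f x) ≤ (c (q (f x0)) : T) := by
      intro x
      have h1 : c (q (f x)) = c (q (f x0)) := hg ((hfl x).trans (hfl x0).symm)
      rw [← h1]
      exact hc _
    have h2 : #X ≤ #(Iic (c (q (f x0)) : T)) := by
      refine Cardinal.mk_le_of_injective (f := fun x => ⟨q (f x), hle x⟩) ?_
      intro x x' heq
      exact hf x x' (q.injective (Subtype.ext_iff.1 heq))
    have h3 : #(Iic (c (q (f x0)) : T)) < #X := by
      have h4 : #(Iio (c (q (f x0)) : T)) < #X := Cardinal.mk_Iio_toType_ord_lt _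
      have h5 : (Iic (c (q (f x0)) : T)) = insert (c (q (f x0)) : T) (Iio (c (q (f x0)) : T)) := by
        rw [Iio_insert]
      rw [h5]
      refine (Cardinal.mk_insert_le).trans_lt ?_
      exact Cardinal.add_lt_of_lt hinf h4 (Cardinal.one_lt_aleph0.trans_le hinf)
    exact absurd h2 (not_le.2 h3)
  · rw [not_nonempty_iff] at hX
    rw [Cardinal.mk_eq_zero] at hinf
    exact absurd hinf (not_le.2 Cardinal.aleph0_pos)

theorem not_powersetChain {K X L : Type} (h : NoLongChain K X L) : ¬ PowersetChain #X := by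
  rintro ⟨S, hS, hcard⟩
  obtain ⟨q⟩ : Nonempty (X ≃ S) := by rw [← Cardinal.eq, hcard]
  obtain ⟨⟨g, hg⟩⟩ : Nonempty ((ℕ → ℕ) ↪ K) := by
    rw [← Cardinal.le_def, mk_baire]
    exact le_card_K h
  refine h.no_chain (fun x => g '' (q x : Set (ℕ → ℕ))) (fun x x' hne heq => hne ?_)
    fun x x' => ?_
  · exact q.injective (Subtype.ext (image_injective.2 hg heq))
  · rcases hS.total (q x).2 (q x').2 with h1 | h1
    · exact Or.inl (image_mono h1)
    · exact Or.inr (image_mono h1)

/-- Under `NoLongChain`, all chains of Weihrauch degrees have size less than `2 ^ 𝔠`. -/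
theorem chain_lt {K X L : Type} (h : NoLongChain K X L) (C : Set Degree)
    (hC : IsChain (· ≤ ·) C) : #C < 2 ^ 𝔠 := by
  have hcard : #Degree ≤ 2 ^ 𝔠 := by
    have h1 : #Degree ≤ #Problem := Cardinal.mk_le_of_surjective
      (f := toAntisymmetrization (· ≤ ·)) (by
        intro d; exact ⟨ofAntisymmetrization (· ≤ ·) d, by simp⟩)
    have h2 : #Problem ≤ #((ℕ → ℕ) → Set (ℕ → ℕ)) :=
      Cardinal.mk_le_of_injective (f := Problem.sol) (fun f g h => Problem.ext h)
    have h3 : #((ℕ → ℕ) → Set (ℕ → ℕ)) = 2 ^ 𝔠 := by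
      rw [← Cardinal.power_def, Cardinal.mk_set, mk_baire, ← Cardinal.power_mul,
        Cardinal.mul_eq_self Cardinal.aleph0_le_continuum]
    exact (h1.trans h2).trans h3.le
  refine lt_of_le_of_ne ((Cardinal.mk_set_le C).trans hcard) fun heq => ?_
  have h1 : #X ≤ #C := by rw [heq]; exact card_X_le h
  obtain ⟨C', hC', hcard'⟩ := Cardinal.le_mk_iff_exists_subset.1 h1
  refine not_powersetChain h (powersetChain_of_degreeChain ?_ ⟨C', hC.mono hC', hcard'⟩)
  exact (succ_le_L h).trans_lt (lt_cof h)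

end Pool.Agent.TH785.WC
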