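import Mathlib

/-!
# Cardinal arithmetic for a strong limit cardinal of large cofinality
-/

set_option autoImplicit false

namespace Pool.Agent.TH785.WC

open Cardinal Order Set

universe u

/-- In a well order of type an initial ordinal, sets of size less than the cofinality are
bounded. -/
theorem bdd_of_lt_cof {m : Cardinal.{u}} (hm : ℵ₀ ≤ m) {s : Set m.ord.ToType}
    (hs : #s < m.ord.cof) : ∃ b : m.ord.ToType, ∀ x ∈ s, x < b := by
  have hlim : IsSuccLimit m.ord := Cardinal.isSuccLimit_ord hm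
  have h1 : ¬ IsCofinal s := by
    intro h
    have := Order.cof_le h
    rw [Ordinal.cof_toType] at this
    exact absurd this (not_le.2 hs)
  rw [not_isCofinal_iff] at h1
  obtain ⟨b, hb⟩ := h1
  exact ⟨b, hb⟩

/-- If `m` is a strong limit and `l < cof m` then `m ^ l ≤ m`. -/
theorem power_le_of_lt_cof {m l : Cardinal.{u}} (hm : IsStrongLimit m) (hl : l < m.ord.cof) :
    m ^ l ≤ m := by
  classical
  have hm0 : ℵ₀ ≤ m := hm.aleph0_le
  have hlm : l < m := hl.trans_le (Ordinal.cof_ord_le m)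
  let T := m.ord.ToType
  have hT : #T = m := Cardinal.mk_ord_toType m
  let Λ := l.out
  have hΛ : #Λ = l := Cardinal.mk_out l
  have hcov : (Set.univ : Set (Λ → T)) ⊆ ⋃ b : T, {f | ∀ i, f i < b} := by
    intro f _
    obtain ⟨b, hb⟩ := bdd_of_lt_cof hm0 (s := Set.range f)
      (Cardinal.mk_range_le.trans_lt (by rw [hΛ]; exact hl))
    exact mem_iUnion.2 ⟨b, fun i => hb _ ⟨i, rfl⟩⟩
  have hsmall : ∀ b : T, #{f : Λ → T | ∀ i, f i < b} ≤ m := by
    intro b
    have h1 : #{f : Λ → T | ∀ i, f i < b} ≤ #(Λ → Iio b) := by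
      refine Cardinal.mk_le_of_injective (f := fun f i => ⟨f.1 i, f.2 i⟩) ?_
      intro f g h
      apply Subtype.ext
      funext i
      exact Subtype.ext_iff.1 (congrFun h i)
    refine h1.trans ?_
    rw [← Cardinal.power_def, hΛ]
    have hb : #(Iio b) < m := Cardinal.mk_Iio_toType_ord_lt b
    have hmax : max (#(Iio b)) (max l ℵ₀) ≤ m := max_le hb.le (max_le hlm.le hm0)
    have h2 : max (#(Iio b)) l < m := max_lt hb hlm
    calc #(Iio b) ^ l ≤ (2 ^ (max (#(Iio b)) l)) ^ l := by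
          refine Cardinal.power_le_power_right ?_
          exact (Cardinal.cantor _).le.trans
            (Cardinal.power_le_power_left two_ne_zero (le_max_left _ _))
      _ = 2 ^ (max (#(Iio b)) l * l) := by rw [← Cardinal.power_mul]
      _ ≤ m := by
          have h3 : max (#(Iio b)) l * l < m := by
            rcases lt_or_ge (max (#(Iio b)) l * l) ℵ₀ with h | h
            · rcases hm0.lt_or_eq with h' | h'
              · exact h.trans_le hm0
              · exact h.trans_le hm0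
            · exact Cardinal.mul_lt_of_lt hm0 h2 hlm
          exact (hm.isStrongPrelimit h3).le
  calc m ^ l = #(Λ → T) := by rw [← Cardinal.power_def, hT, hΛ]
    _ = #(Set.univ : Set (Λ → T)) := Cardinal.mk_univ.symm
    _ ≤ #(⋃ b : T, {f : Λ → T | ∀ i, f i < b}) := Cardinal.mk_le_mk_of_subset hcov
    _ ≤ #T * ⨆ b : T, #{f : Λ → T | ∀ i, f i < b} := Cardinal.mk_iUnion_le _
    _ ≤ m * m := mul_le_mul' hT.le (ciSup_le' hsmall)
    _ = m := Cardinal.mul_eq_self hm0

/-- `(succ c) ^ ℵ₀ ≤ succ c` if `c ^ ℵ₀ ≤ c`. -/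
theorem succ_power_aleph0 {c : Cardinal.{u}} (hc0 : ℵ₀ ≤ c) (hc : c ^ (ℵ₀ : Cardinal.{u}) ≤ c) :
    (Order.succ c) ^ (ℵ₀ : Cardinal.{u}) ≤ Order.succ c := by
  classical
  have hreg : (Order.succ c).IsRegular := Cardinal.isRegular_succ hc0
  have hinf : ℵ₀ ≤ Order.succ c := hc0.trans (Order.le_succ c)
  let T := (Order.succ c).ord.ToType
  have hT : #T = Order.succ c := Cardinal.mk_ord_toType _
  let Λ := ULift.{u} ℕ
  have hΛ : #Λ = ℵ₀ := by simp [Λ]
  have hlt : ℵ₀ < (Order.succ c).ord.cof := by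
    rw [hreg.cof_ord]
    exact hc0.trans_lt (Order.lt_succ c)
  have hcov : (Set.univ : Set (Λ → T)) ⊆ ⋃ b : T, {f | ∀ i, f i < b} := by
    intro f _
    obtain ⟨b, hb⟩ := bdd_of_lt_cof hinf (s := Set.range f)
      (Cardinal.mk_range_le.trans_lt (by rw [hΛ]; exact hlt))
    exact mem_iUnion.2 ⟨b, fun i => hb _ ⟨i, rfl⟩⟩
  have hsmall : ∀ b : T, #{f : Λ → T | ∀ i, f i < b} ≤ c := by
    intro b
    have h1 : #{f : Λ → T | ∀ i, f i < b} ≤ #(Λ → Iio b) := by
      refine Cardinal.mk_le_of_injective (f := fun f i => ⟨f.1 i, f.2 i⟩) ?_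
      intro f g h
      apply Subtype.ext
      funext i
      exact Subtype.ext_iff.1 (congrFun h i)
    refine h1.trans ?_
    rw [← Cardinal.power_def, hΛ]
    have hb : #(Iio b) ≤ c := Order.lt_succ_iff.1 (Cardinal.mk_Iio_toType_ord_lt b)
    exact (Cardinal.power_le_power_right hb).trans hc
  calc (Order.succ c) ^ (ℵ₀ : Cardinal.{u}) = #(Λ → T) := by rw [← Cardinal.power_def, hT, hΛ]
    _ = #(Set.univ : Set (Λ → T)) := Cardinal.mk_univ.symm
    _ ≤ #(⋃ b : T, {f : Λ → T | ∀ i, f i < b}) := Cardinal.mk_le_mk_of_subset hcov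
    _ ≤ #T * ⨆ b : T, #{f : Λ → T | ∀ i, f i < b} := Cardinal.mk_iUnion_le _
    _ ≤ Order.succ c * Order.succ c :=
        mul_le_mul' hT.le (ciSup_le' fun b => (hsmall b).trans (Order.le_succ c))
    _ = Order.succ c := Cardinal.mul_eq_self hinf

/-- There is a strong limit cardinal above `k` of cofinality `k`, for successor cardinals `k`. -/
theorem exists_strongLimit {c : Cardinal.{u}} (hc : ℵ₀ ≤ c) :
    ∃ m : Cardinal.{u}, IsStrongLimit m ∧ m.ord.cof = Order.succ c ∧ Order.succ c < m := by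
  have hk : (Order.succ c).IsRegular := Cardinal.isRegular_succ hc
  have hlim : IsSuccLimit (Order.succ c).ord := Cardinal.isSuccLimit_ord hk.aleph0_le
  have hN : Order.IsNormal (Cardinal.ord ∘ Cardinal.beth : Ordinal.{u} → Ordinal.{u}) :=
    Cardinal.isNormal_ord.comp Cardinal.isNormal_beth
  have hcof : ((ℶ_ (Order.succ c).ord).ord).cof = Order.succ c := by
    have h := Ordinal.cof_map_of_isNormal hN hlim
    simp only [Function.comp_apply] at h
    rw [h, hk.cof_ord]
  have hle : Order.succ c ≤ ℶ_ (Order.succ c).ord := Cardinal.le_beth_ord _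
  have hst : IsStrongLimit (ℶ_ (Order.succ c).ord) := 
    Cardinal.isStrongLimit_beth.2 hlim.isSuccPrelimit
  refine ⟨ℶ_ (Order.succ c).ord, hst, hcof, lt_of_le_of_ne hle fun heq => ?_⟩
  have h1 : c < ℶ_ (Order.succ c).ord := (Order.lt_succ c).trans_le hle
  have h2 : (2 : Cardinal.{u}) ^ c < ℶ_ (Order.succ c).ord := hst.isStrongPrelimit h1
  rw [← heq] at h2
  exact absurd (Order.succ_le_of_lt (Cardinal.cantor c)) (not_le.2 h2)

end Pool.Agent.TH785.WC
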