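import Mathlib
import Pool.Agent.Helper669.KDelta
import Pool.Agent.Helper669.Easton
import Pool.Agent.TH785.WC.Card
import Pool.Agent.TH785.WC.Defs

/-!
# Finite and countable partial functions
-/

set_option autoImplicit false

namespace Pool.Agent.TH785.WC

open Cardinal Set
open Pool.Agent.Helper669.Forcing
open Pool.Agent.Helper669.KDelta (weak_delta)

/-- A set of pairs is a partial function. -/
def Fn {D : Type} (g : Set (D × Bool)) : Prop := ∀ d b b', (d, b) ∈ g → (d, b') ∈ g → b = b'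

theorem Fn.mono {D : Type} {g h : Set (D × Bool)} (hh : Fn h) (hgh : g ⊆ h) : Fn g :=
  fun d b b' h1 h2 => hh d b b' (hgh h1) (hgh h2)

/-- two of many small partial functions are compatible -/
theorem compat_aux {D E : Type} {c : Cardinal.{0}} (hc : ℵ₀ ≤ c) (hE : ¬ #E ≤ c)
    (g : E → Set (D × Bool)) (hg : ∀ i, #(g i) < c) (hfn : ∀ i, Fn (g i))
    (hcount : ∀ Q : Set (D × Bool), #Q ≤ c → #{s : Set (D × Bool) // s ⊆ Q ∧ ∃ i, s ⊆ g i} ≤ c) :
    ∃ i j, i ≠ j ∧ Fn (g i ∪ g j) := by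
  classical
  obtain ⟨T, R, hT, hR, hTR⟩ := weak_delta (K := D) hc hE (fun i => Prod.fst '' g i)
    (fun i => Cardinal.mk_image_le.trans_lt (hg i))
  let Q : Set (D × Bool) := {x | x.1 ∈ R}
  have hQ : #Q ≤ c := by
    have h1 : #Q ≤ #(R × Bool) := by
      refine Cardinal.mk_le_of_injective (f := fun x => (⟨x.1.1, x.2⟩, x.1.2)) ?_
      rintro ⟨⟨a, b⟩, h⟩ ⟨⟨a', b'⟩, h'⟩ heq
      simp only [Prod.mk.injEq, Subtype.mk.injEq] at heq
      exact Subtype.ext (Prod.ext heq.1 heq.2)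
    refine h1.trans ?_
    rw [Cardinal.mk_prod, Cardinal.lift_id, Cardinal.lift_id]
    calc #R * #Bool ≤ c * c := mul_le_mul' hR (by
          rw [Cardinal.mk_bool]
          exact (Cardinal.natCast_lt_aleph0 (n := 2)).le.trans hc)
      _ = c := Cardinal.mul_eq_self hc
  let f : T → {s : Set (D × Bool) // s ⊆ Q ∧ ∃ i, s ⊆ g i} :=
    fun i => ⟨g i ∩ Q, inter_subset_right, i, inter_subset_left⟩
  have hninj : ¬ Function.Injective f := fun h =>
    hT ((Cardinal.mk_le_of_injective h).trans (hcount Q hQ))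
  simp only [Function.Injective, not_forall] at hninj
  obtain ⟨i, j, hij, hne⟩ := hninj
  have hij' : g i ∩ Q = g j ∩ Q := Subtype.ext_iff.1 hij
  have hne' : (i : E) ≠ j := fun h => hne (Subtype.ext h)
  refine ⟨i, j, hne', ?_⟩
  have key : ∀ a b b', (a, b) ∈ g i → (a, b') ∈ g j → b = b' := by
    intro a b b' h1 h2
    have haR : a ∈ R := hTR i i.2 j j.2 hne' ⟨⟨_, h1, rfl⟩, ⟨_, h2, rfl⟩⟩
    have h3 : (a, b) ∈ g i ∩ Q := ⟨h1, haR⟩
    rw [hij'] at h3
    exact hfn j a b b' h3.1 h2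
  intro a b b' h1 h2
  rcases h1 with h1 | h1 <;> rcases h2 with h2 | h2
  · exact hfn i a b b' h1 h2
  · exact key a b b' h1 h2
  · exact (key a b' b h2 h1).symm
  · exact hfn j a b b' h1 h2

/-- the Delta-system lemma for countable partial functions -/
theorem compat_countable {D E : Type} (hE : ¬ #E ≤ 𝔠)
    (g : E → Set (D × Bool)) (hg : ∀ i, (g i).Countable) (hfn : ∀ i, Fn (g i)) :
    ∃ i j, i ≠ j ∧ Fn (g i ∪ g j) := by
  refine compat_aux aleph0_le_continuum hE g (fun i => ?_) hfn fun Q hQ => ?_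
  · exact (Cardinal.le_aleph0_iff_set_countable.2 (hg i)).trans_lt aleph0_lt_continuum
  · have h1 : #{s : Set (D × Bool) // s ⊆ Q ∧ ∃ i, s ⊆ g i} ≤
        #{s : Set (D × Bool) // s ⊆ Q ∧ #s ≤ ℵ₀} := by
      refine Cardinal.mk_subtype_le_of_subset ?_
      rintro s ⟨h1, i, h2⟩
      exact ⟨h1, Cardinal.le_aleph0_iff_set_countable.2 ((hg i).mono h2)⟩
    refine h1.trans ((Cardinal.mk_bounded_subset_le Q ℵ₀).trans ?_)
    calc max #Q ℵ₀ ^ (ℵ₀ : Cardinal.{0}) ≤ 𝔠 ^ (ℵ₀ : Cardinal.{0}) :=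
          Cardinal.power_le_power_right (max_le hQ aleph0_le_continuum)
      _ = 𝔠 := Cardinal.continuum_power_aleph0

/-- the Delta-system lemma for finite partial functions -/
theorem compat_finite {D E : Type} (hE : ¬ #E ≤ ℵ₀)
    (g : E → Set (D × Bool)) (hg : ∀ i, (g i).Finite) (hfn : ∀ i, Fn (g i)) :
    ∃ i j, i ≠ j ∧ Fn (g i ∪ g j) := by
  refine compat_aux le_rfl hE g (fun i => Cardinal.mk_lt_aleph0_iff.2 (hg i)) hfn fun Q hQ => ?_
  have hQc : Q.Countable := Cardinal.le_aleph0_iff_set_countable.1 hQ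
  have h1 : {s : Set (D × Bool) | s.Finite ∧ s ⊆ Q}.Countable :=
    Set.countable_setOf_finite_subset hQc
  have h2 : {s : Set (D × Bool) | s ⊆ Q ∧ ∃ i, s ⊆ g i}.Countable := by
    refine h1.mono ?_
    rintro s ⟨h1, i, h2⟩
    exact ⟨(hg i).subset h2, h1⟩
  exact Cardinal.le_aleph0_iff_set_countable.2 h2

/-! ### Conditions -/

/-- finite partial functions from `D` to `Bool` -/
@[ext]
structure FC (D : Type) where
  /-- the graph -/
  g : Set (D × Bool)
  fin : g.Finite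
  fn : Fn g

/-- countable partial functions from `D` to `Bool` -/
@[ext]
structure CC (D : Type) where
  /-- the graph -/
  g : Set (D × Bool)
  cnt : g.Countable
  fn : Fn g

instance (D : Type) : Preorder (FC D) where
  le p q := q.g ⊆ p.g
  le_refl _ := subset_rfl
  le_trans _ _ _ h h' := h'.trans h

instance (D : Type) : Preorder (CC D) where
  le p q := q.g ⊆ p.g
  le_refl _ := subset_rfl
  le_trans _ _ _ h h' := h'.trans h

theorem FC.le_iff {D : Type} {p q : FC D} : p ≤ q ↔ q.g ⊆ p.g := Iff.rfl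

theorem CC.le_iff {D : Type} {p q : CC D} : p ≤ q ↔ q.g ⊆ p.g := Iff.rfl

instance (D : Type) : Nonempty (FC D) := ⟨⟨∅, Set.finite_empty, fun _ _ _ h => h.elim⟩⟩

instance (D : Type) : Nonempty (CC D) := ⟨⟨∅, Set.countable_empty, fun _ _ _ h => h.elim⟩⟩

/-- the forcing notion: finite partial functions on `I` and countable ones on `J` -/
abbrev PP (I J : Type) := FC I × CC J

theorem PP.le_iff {I J : Type} {p q : PP I J} : p ≤ q ↔ q.1.g ⊆ p.1.g ∧ q.2.g ⊆ p.2.g := Iff.rfl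

/-- the graph of a condition, as one partial function -/
def gr {I J : Type} (p : PP I J) : Set ((I ⊕ J) × Bool) :=
  (fun x => (Sum.inl x.1, x.2)) '' p.1.g ∪ (fun x => (Sum.inr x.1, x.2)) '' p.2.g

theorem mem_gr_inl {I J : Type} {p : PP I J} {i : I} {b : Bool} :
    (Sum.inl i, b) ∈ gr p ↔ (i, b) ∈ p.1.g := by
  constructor
  · rintro (⟨x, hx, heq⟩ | ⟨x, hx, heq⟩)
    · simp only [Prod.mk.injEq, Sum.inl.injEq] at heq
      obtain ⟨h1, h2⟩ := heq
      rw [← h1, ← h2]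
      exact hx
    · simp at heq
  · intro h
    exact Or.inl ⟨_, h, rfl⟩

theorem mem_gr_inr {I J : Type} {p : PP I J} {i : J} {b : Bool} :
    (Sum.inr i, b) ∈ gr p ↔ (i, b) ∈ p.2.g := by
  constructor
  · rintro (⟨x, hx, heq⟩ | ⟨x, hx, heq⟩)
    · simp at heq
    · simp only [Prod.mk.injEq, Sum.inr.injEq] at heq
      obtain ⟨h1, h2⟩ := heq
      rw [← h1, ← h2]
      exact hx
  · intro h
    exact Or.inr ⟨_, h, rfl⟩

theorem gr_countable {I J : Type} (p : PP I J) : (gr p).Countable :=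
  (p.1.fin.countable.image _).union (p.2.cnt.image _)

theorem gr_fn {I J : Type} (p : PP I J) : Fn (gr p) := by
  rintro (d | d) b b' h h'
  · rw [mem_gr_inl] at h h'
    exact p.1.fn d b b' h h'
  · rw [mem_gr_inr] at h h'
    exact p.2.fn d b b' h h'

/-- union of compatible finite partial functions -/
def FC.union {D : Type} (p q : FC D) (h : Fn (p.g ∪ q.g)) : FC D := ⟨p.g ∪ q.g, p.fin.union q.fin, h⟩

/-- union of compatible countable partial functions -/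
def CC.union {D : Type} (p q : CC D) (h : Fn (p.g ∪ q.g)) : CC D := ⟨p.g ∪ q.g, p.cnt.union q.cnt, h⟩

/-- among more than continuum many conditions there are two compatible ones -/
theorem exists_compat {I J E : Type} (hE : ¬ #E ≤ 𝔠) (f : E → PP I J) :
    ∃ i j, i ≠ j ∧ ∃ r, r ≤ f i ∧ r ≤ f j := by
  obtain ⟨i, j, hne, h⟩ := compat_countable hE (fun i => gr (f i)) (fun i => gr_countable _)
    fun i => gr_fn _
  have h1 : Fn ((f i).1.g ∪ (f j).1.g) := by
    intro d b b' hb hb'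
    refine h (Sum.inl d) b b' ?_ ?_
    · exact hb.imp mem_gr_inl.2 mem_gr_inl.2
    · exact hb'.imp mem_gr_inl.2 mem_gr_inl.2
  have h2 : Fn ((f i).2.g ∪ (f j).2.g) := by
    intro d b b' hb hb'
    refine h (Sum.inr d) b b' ?_ ?_
    · exact hb.imp mem_gr_inr.2 mem_gr_inr.2
    · exact hb'.imp mem_gr_inr.2 mem_gr_inr.2
  exact ⟨i, j, hne, ⟨FC.union _ _ h1, CC.union _ _ h2⟩, ⟨subset_union_left, subset_union_left⟩,
    ⟨subset_union_right, subset_union_right⟩⟩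

/-- the same for pairs of conditions with a common first part -/
theorem exists_compat3 {I J E : Type} (hE : ¬ #E ≤ 𝔠) (f : E → FC I) (g g' : E → CC J) :
    ∃ i j, i ≠ j ∧ Fn ((f i).g ∪ (f j).g) ∧ Fn ((g i).g ∪ (g j).g) ∧ Fn ((g' i).g ∪ (g' j).g) := by
  have hG : ∀ i, ∃ t : CC (J ⊕ J), t.g = {x | (∃ a b, x = (Sum.inl a, b) ∧ (a, b) ∈ (g i).g) ∨
      ∃ a b, x = (Sum.inr a, b) ∧ (a, b) ∈ (g' i).g} := by
    intro i
    refine ⟨⟨_, ?_, ?_⟩, rfl⟩
    · have h1 : {x : (J ⊕ J) × Bool | (∃ a b, x = (Sum.inl a, b) ∧ (a, b) ∈ (g i).g) ∨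
          ∃ a b, x = (Sum.inr a, b) ∧ (a, b) ∈ (g' i).g} ⊆
          (fun x : J × Bool => (Sum.inl x.1, x.2)) '' (g i).g ∪
          (fun x : J × Bool => (Sum.inr x.1, x.2)) '' (g' i).g := by
        rintro x (⟨a, b, rfl, h⟩ | ⟨a, b, rfl, h⟩)
        · exact Or.inl ⟨_, h, rfl⟩
        · exact Or.inr ⟨_, h, rfl⟩
      exact (((g i).cnt.image _).union ((g' i).cnt.image _)).mono h1
    · intro d b b' h h'
      rcases h with ⟨a, c, heq, h⟩ | ⟨a, c, heq, h⟩ <;>
      rcases h' with ⟨a', c', heq', h'⟩ | ⟨a', c', heq', h'⟩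
      · simp only [Prod.mk.injEq] at heq heq'
        obtain ⟨rfl, rfl⟩ := heq
        obtain ⟨h3, rfl⟩ := heq'
        rw [Sum.inl.injEq] at h3
        subst h3
        exact (g i).fn _ _ _ h h'
      · simp only [Prod.mk.injEq] at heq heq'
        obtain ⟨rfl, rfl⟩ := heq
        exact absurd heq'.1 (by simp)
      · simp only [Prod.mk.injEq] at heq heq'
        obtain ⟨rfl, rfl⟩ := heq
        exact absurd heq'.1 (by simp)
      · simp only [Prod.mk.injEq] at heq heq'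
        obtain ⟨rfl, rfl⟩ := heq
        obtain ⟨h3, rfl⟩ := heq'
        rw [Sum.inr.injEq] at h3
        subst h3
        exact (g' i).fn _ _ _ h h'
  choose G hGeq using hG
  obtain ⟨i, j, hne, r, hri, hrj⟩ := exists_compat hE (fun i => ((f i, G i) : PP I (J ⊕ J)))
  refine ⟨i, j, hne, r.1.fn.mono (union_subset hri.1 hrj.1), ?_, ?_⟩
  · intro d b b' h h'
    have key : ∀ c, (d, c) ∈ (g i).g ∪ (g j).g → (Sum.inl d, c) ∈ r.2.g := by
      rintro c (hc | hc)
      · exact hri.2 (by rw [hGeq]; exact Or.inl ⟨d, c, rfl, hc⟩)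
      · exact hrj.2 (by rw [hGeq]; exact Or.inl ⟨d, c, rfl, hc⟩)
    exact r.2.fn _ _ _ (key b h) (key b' h')
  · intro d b b' h h'
    have key : ∀ c, (d, c) ∈ (g' i).g ∪ (g' j).g → (Sum.inr d, c) ∈ r.2.g := by
      rintro c (hc | hc)
      · exact hri.2 (by rw [hGeq]; exact Or.inr ⟨d, c, rfl, hc⟩)
      · exact hrj.2 (by rw [hGeq]; exact Or.inr ⟨d, c, rfl, hc⟩)
    exact r.2.fn _ _ _ (key b h) (key b' h')

/-! ### Restrictions -/

/-- `t` on `S` and `u` off `S` -/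
def mix {J : Type} (S : Set J) (t u : CC J) : CC J where
  g := {x | (x.1 ∈ S ∧ x ∈ t.g) ∨ (x.1 ∉ S ∧ x ∈ u.g)}
  cnt := (t.cnt.union u.cnt).mono (by
    rintro x (h | h)
    · exact Or.inl h.2
    · exact Or.inr h.2)
  fn := by
    rintro d b b' (⟨h1, h2⟩ | ⟨h1, h2⟩) (⟨h3, h4⟩ | ⟨h3, h4⟩)
    · exact t.fn _ _ _ h2 h4
    · exact absurd h1 h3
    · exact absurd h3 h1
    · exact u.fn _ _ _ h2 h4

/-- the part of `t` on `S` -/
def res {J : Type} (S : Set J) (t : CC J) : CC J where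
  g := {x | x.1 ∈ S ∧ x ∈ t.g}
  cnt := t.cnt.mono fun _ h => h.2
  fn := t.fn.mono fun _ h => h.2

theorem mem_res {J : Type} {S : Set J} {t : CC J} {x : J × Bool} :
    x ∈ (res S t).g ↔ x.1 ∈ S ∧ x ∈ t.g := Iff.rfl

theorem mem_mix {J : Type} {S : Set J} {t u : CC J} {x : J × Bool} :
    x ∈ (mix S t u).g ↔ (x.1 ∈ S ∧ x ∈ t.g) ∨ (x.1 ∉ S ∧ x ∈ u.g) := Iff.rfl

/-- all conditions in `N` live on `S` -/
def On {I J : Type} (S : Set J) (N : Set (PP I J)) : Prop := ∀ p ∈ N, ∀ x ∈ p.2.g, x.1 ∈ S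

theorem meets_change {I J : Type} {S : Set J} {N : Set (PP I J)} (hN : On S N) {s : FC I}
    {t t' : CC J} (h : (s, t) ∈ meets N) (hle : ∀ x ∈ t.g, x.1 ∈ S → x ∈ t'.g) :
    (s, t') ∈ meets N := by
  intro q hq
  have hq' : ((q.1, mix S q.2 t) : PP I J) ≤ (s, t) := by
    refine ⟨hq.1, fun x hx => ?_⟩
    by_cases hxS : x.1 ∈ S
    · exact Or.inl ⟨hxS, hq.2 (hle x hx hxS)⟩
    · exact Or.inr ⟨hxS, hx⟩
  obtain ⟨r, hr, n, hn, hrn⟩ := h _ hq'
  refine ⟨(r.1, mix S r.2 q.2), ⟨hr.1, fun x hx => ?_⟩, n, hn, ⟨hrn.1, fun x hx => ?_⟩⟩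
  · by_cases hxS : x.1 ∈ S
    · exact Or.inl ⟨hxS, hr.2 (Or.inl ⟨hxS, hx⟩)⟩
    · exact Or.inr ⟨hxS, hx⟩
  · exact Or.inl ⟨hN n hn x hx, hrn.2 hx⟩

end Pool.Agent.TH785.WC
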