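import Mathlib
import Pool.Agent.TH785.WC.Cond

/-!
# The reals of the extension have names using only the finite partial functions
-/

set_option autoImplicit false

namespace Pool.Agent.TH785.WC

open Cardinal Set
open Pool.Agent.Helper669.Forcing

/-- maximal antichains -/
theorem exists_antichain {B : Type} [Preorder B] {c : Cardinal.{0}}
    (hcc : ∀ (E : Type) (f : E → B), ¬ #E ≤ c → ∃ i j, i ≠ j ∧ ∃ r, r ≤ f i ∧ r ≤ f j)
    (D : Set B) : ∃ A ⊆ D, #A ≤ c ∧ ∀ d ∈ D, ∃ a ∈ A, ∃ r, r ≤ a ∧ r ≤ d := by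
  obtain ⟨A, hA⟩ := zorn_subset {A : Set B | A ⊆ D ∧
      ∀ a ∈ A, ∀ b ∈ A, (∃ r, r ≤ a ∧ r ≤ b) → a = b}
    (by
      intro c hc hchain
      refine ⟨⋃₀ c, ⟨Set.sUnion_subset fun s hs => (hc hs).1, ?_⟩,
        fun s hs => Set.subset_sUnion_of_mem hs⟩
      rintro a ⟨s, hs, ha⟩ b ⟨t, ht, hb⟩ hab
      rcases hchain.total hs ht with h | h
      · exact (hc ht).2 a (h ha) b hb hab
      · exact (hc hs).2 a ha b (h hb) hab)
  refine ⟨A, hA.prop.1, ?_, ?_⟩
  · by_contra hcount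
    obtain ⟨y, y', hne, h⟩ := hcc A (fun a : A => a.1) hcount
    exact hne (Subtype.ext (hA.prop.2 y.1 y.2 y'.1 y'.2 h))
  · intro q hqD
    by_contra hcon
    push Not at hcon
    have hmem : insert q A ∈ {A : Set B | A ⊆ D ∧
        ∀ a ∈ A, ∀ b ∈ A, (∃ r, r ≤ a ∧ r ≤ b) → a = b} := by
      refine ⟨Set.insert_subset hqD hA.prop.1, ?_⟩
      rintro a (rfl | ha) b (rfl | hb) hab
      · rfl
      · obtain ⟨s, h1, h2⟩ := hab
        exact absurd h1 (hcon b hb s h2)
      · obtain ⟨s, h1, h2⟩ := hab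
        exact absurd h2 (hcon a ha s h1)
      · exact hA.prop.2 a ha b hb hab
    have hq : q ∈ A := hA.le_of_ge hmem (Set.subset_insert q A) (Set.mem_insert q A)
    exact hcon q hq q le_rfl le_rfl

theorem fc_ccc {I : Type} (E : Type) (f : E → FC I) (hE : ¬ #E ≤ ℵ₀) :
    ∃ i j, i ≠ j ∧ ∃ r, r ≤ f i ∧ r ≤ f j := by
  obtain ⟨i, j, hne, h⟩ := compat_finite hE (fun i => (f i).g) (fun i => (f i).fin)
    fun i => (f i).fn
  exact ⟨i, j, hne, FC.union _ _ h, subset_union_left, subset_union_right⟩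

/-- the name given by a code -/
def codeName {I J : Type} (c : ℕ → ℕ → Option (FC I)) (n : ℕ) : Set (PP I J) :=
  {r | ∃ k, c n k = some r.1 ∧ r.2.g = ∅}

/-- every real of the extension has a name given by a code -/
theorem exists_code {I J : Type} (Z : ℕ → Set (PP I J)) (p : PP I J) :
    ∃ q ≤ p, ∃ c : ℕ → ℕ → Option (FC I), q ∈ Same (codeName (J := J) c) Z := by
  classical
  obtain ⟨t', ht', hdec⟩ := Pool.Agent.Helper669.Easton.easton (B := FC I) (T := CC J)
    (κ := Order.succ ℵ₀) (Cardinal.isRegular_succ le_rfl)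
    (by
      intro A hA
      rw [Order.lt_succ_iff]
      by_contra hcount
      obtain ⟨y, y', hne, r, h1, h2⟩ := fc_ccc A (fun a : A => a.1) hcount
      exact hne (Subtype.ext (hA y.1 y.2 y'.1 y'.2 ⟨r, h1, h2⟩)))
    (by
      intro S hS hcard hne
      rw [Order.lt_succ_iff, Cardinal.le_aleph0_iff_set_countable] at hcard
      refine ⟨⟨⋃ s ∈ S, s.g, hcard.biUnion fun s _ => s.cnt, ?_⟩, fun s hs =>
        Set.subset_biUnion_of_mem (u := fun s : CC J => s.g) hs⟩
      intro d b b' h h'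
      simp only [mem_iUnion] at h h'
      obtain ⟨s, hs, h⟩ := h
      obtain ⟨s', hs', h'⟩ := h'
      rcases hS s hs s' hs' with hle | hle
      · exact s.fn _ _ _ h (hle h')
      · exact s'.fn _ _ _ (hle h) h')
    (Λ := ℕ) (by simp)
    (fun n b t => ((b, t) : PP I J) ∈ meets (Z n) ∨ ((b, t) : PP I J) ∈ fnot (meets (Z n)))
    (by
      intro n b t h b' hb t' ht
      have hle : ((b', t') : PP I J) ≤ (b, t) := ⟨hb, ht⟩
      exact h.imp (fun h => down_meets _ _ h _ hle) fun h => down_fnot _ _ h _ hle)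
    (by
      intro n b t
      obtain ⟨q, hq, h⟩ := meets_or (Z n) ((b, t) : PP I J)
      exact ⟨q.1, hq.1, q.2, hq.2, h⟩) p.2
  have hanti : ∀ n, ∃ A ⊆ {b : FC I | ((b, t') : PP I J) ∈ meets (Z n)}, #A ≤ ℵ₀ ∧
      ∀ d ∈ {b : FC I | ((b, t') : PP I J) ∈ meets (Z n)}, ∃ a ∈ A, ∃ r, r ≤ a ∧ r ≤ d :=
    fun n => exists_antichain fc_ccc _
  choose A hA1 hA2 hA3 using hanti
  have henum : ∀ n, ∃ e : ℕ → Option (FC I), ∀ b, b ∈ A n ↔ ∃ k, e k = some b := by
    intro n
    have hc : (A n).Countable := Cardinal.le_aleph0_iff_set_countable.1 (hA2 n)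
    by_cases hne : (A n).Nonempty
    · obtain ⟨e, he⟩ := hc.exists_eq_range hne
      refine ⟨fun k => some (e k), fun b => ?_⟩
      rw [he]
      simp
    · refine ⟨fun _ => none, fun b => ?_⟩
      rw [Set.not_nonempty_iff_eq_empty] at hne
      simp [hne]
  choose e he using henum
  refine ⟨(p.1, t'), ⟨le_rfl, ht'⟩, e, ?_⟩
  rw [mem_Same]
  intro n q hq
  constructor
  · intro h
    refine meets_of_dense fun q' hq' => ?_
    obtain ⟨r, hr, s, ⟨k, hk, _⟩, hrs⟩ := h q' hq'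
    have hsA : s.1 ∈ A n := (he n _).2 ⟨k, hk⟩
    have h1 : ((s.1, t') : PP I J) ∈ meets (Z n) := hA1 n hsA
    exact ⟨r, hr, down_meets _ _ h1 _ ⟨hrs.1, (hr.trans (hq'.trans hq)).2⟩⟩
  · intro h q' hq'
    obtain ⟨b', hb', hd⟩ := hdec n q'.1
    have hle : ((b', q'.2) : PP I J) ≤ (b', t') := ⟨le_rfl, (hq'.trans hq).2⟩
    have hle' : ((b', q'.2) : PP I J) ≤ q' := ⟨hb', le_rfl⟩
    have h1 : ((b', q'.2) : PP I J) ∈ meets (Z n) := down_meets _ _ h _ (hle'.trans hq')
    have h2 : ((b', t') : PP I J) ∈ meets (Z n) := by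
      rcases hd with hd | hd
      · exact hd
      · exact absurd h1 (hd _ hle)
    obtain ⟨a, ha, b'', h3, h4⟩ := hA3 n b' h2
    obtain ⟨k, hk⟩ := (he n a).1 ha
    refine ⟨(b'', q'.2), ⟨h4.trans hb', le_rfl⟩,
      (a, ⟨∅, Set.countable_empty, fun _ _ _ h => h.elim⟩), ⟨k, hk, rfl⟩, h3, Set.empty_subset _⟩

theorem mk_FC_le {I : Type} {c : Cardinal.{0}} (hc : ℵ₀ ≤ c) (hI : #I ≤ c) : #(FC I) ≤ c := by
  classical
  have h1 : #(FC I) ≤ #(Finset (I × Bool)) := by
    refine Cardinal.mk_le_of_injective (f := fun p => p.fin.toFinset) ?_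
    intro p q h
    simp only [Set.Finite.toFinset_inj] at h
    exact FC.ext h
  have h2 : #(I × Bool) ≤ c := by
    rw [Cardinal.mk_prod, Cardinal.lift_id, Cardinal.lift_id]
    calc #I * #Bool ≤ c * c := mul_le_mul' hI (by
          rw [Cardinal.mk_bool]
          exact (Cardinal.natCast_lt_aleph0 (n := 2)).le.trans hc)
      _ = c := Cardinal.mul_eq_self hc
  refine h1.trans ?_
  rcases finite_or_infinite (I × Bool) with hf | hf
  · exact (Cardinal.mk_lt_aleph0 (α := Finset (I × Bool))).le.trans hc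
  · rw [Cardinal.mk_finset_of_infinite]
    exact h2

/-- The set of reals of the extension is the image of `K`. -/
theorem real_onto {K J : Type} {c : Cardinal.{0}} (hc : ℵ₀ ≤ c) (hcp : c ^ (ℵ₀ : Cardinal.{0}) ≤ c)
    (hK : #K = c) (p : PP (K × ℕ) J) :
    p ∈ fex fun e : K → ℕ → Set (PP (K × ℕ) J) => fall fun z : ℕ → Set (PP (K × ℕ) J) =>
      fex fun k => Same (e k) z := by
  classical
  have hI : #(K × ℕ) ≤ c := by
    rw [Cardinal.mk_prod, Cardinal.lift_id, Cardinal.lift_id, hK, Cardinal.mk_nat]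
    exact (mul_le_mul' le_rfl hc).trans (Cardinal.mul_eq_self hc).le
  have h1 : #(Option (FC (K × ℕ))) ≤ c := by
    rw [Cardinal.mk_option]
    exact (add_le_add (mk_FC_le hc hI) (Cardinal.one_le_aleph0.trans hc)).trans
      (Cardinal.add_eq_self hc).le
  have h2 : #(ℕ → Option (FC (K × ℕ))) ≤ c := by
    rw [← Cardinal.power_def, Cardinal.mk_nat]
    exact (Cardinal.power_le_power_right h1).trans hcp
  have h3 : #(ℕ → ℕ → Option (FC (K × ℕ))) ≤ #K := by
    rw [← Cardinal.power_def, Cardinal.mk_nat, hK]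
    exact (Cardinal.power_le_power_right h2).trans hcp
  have hne : Nonempty (ℕ → ℕ → Option (FC (K × ℕ))) := ⟨fun _ _ => none⟩
  obtain ⟨⟨E, hE⟩⟩ := h3
  have hsurj : ∀ c, ∃ k, Function.invFun E k = c := fun c => ⟨E c, Function.leftInverse_invFun hE c⟩
  refine mem_fex_of_mem (fun k => codeName (Function.invFun E k)) ?_ ?_
  · exact down_fall fun _ => down_fex _
  · intro z
    refine mem_fex.2 fun q _ => ?_
    obtain ⟨r, hr, c, hc⟩ := exists_code z q
    obtain ⟨k, hk⟩ := hsurj c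
    refine ⟨r, hr, k, ?_⟩
    show r ∈ Same (codeName (Function.invFun E k)) z
    rw [hk]
    exact hc

end Pool.Agent.TH785.WC
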