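import Mathlib
import Pool.Agent.TH785.WC.Real

/-!
# No new branches
-/

set_option autoImplicit false

namespace Pool.Agent.TH785.WC

open Cardinal Set
open Pool.Agent.Helper669.Forcing

/-- The facts used about the well-ordered set `K`. -/
structure Long (K : Type) [LinearOrder K] : Prop where
  large : ¬ #K ≤ 𝔠
  small : ∀ k : K, #(Iio k) ≤ 𝔠
  bdd : ∀ s : Set K, #s ≤ 𝔠 → ∃ b, ∀ x ∈ s, x < b

theorem mem_Same' {P Y : Type} [Preorder P] {A B : Y → Set P} {p : P} (h : p ∈ Same A B) (y : Y)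
    {q : P} (hq : q ≤ p) : q ∈ meets (A y) ↔ q ∈ meets (B y) := mem_Same.1 h y q hq

/-- If a set of the extension is not named using only the coordinates in `S`, then it can be
split. -/
theorem split {I J K : Type} (S : Set J) (A : K → Set (PP I J)) (r : PP I J)
    (h : ∀ B : K → Set (PP I J), (∀ l, On S (B l)) → r ∉ Same A B) :
    ∃ (l : K) (s : FC I) (t0 t1 : CC J), ((s, t0) : PP I J) ≤ r ∧ ((s, t1) : PP I J) ≤ r ∧
      (∀ x : J × Bool, x.1 ∈ S → (x ∈ t0.g ↔ x ∈ t1.g)) ∧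
      ((s, t0) : PP I J) ∈ meets (A l) ∧ ((s, t1) : PP I J) ∈ fnot (meets (A l)) := by
  let A' : K → Set (PP I J) := fun l => {u | (∀ x ∈ u.2.g, x.1 ∈ S) ∧ ∃ t : CC J,
    ((u.1, t) : PP I J) ≤ r ∧ (∀ x ∈ t.g, x.1 ∈ S → x ∈ u.2.g) ∧
      ((u.1, t) : PP I J) ∈ meets (A l)}
  have hA' : ∀ l, On S (A' l) := fun l u hu => hu.1
  obtain ⟨l, q, hq, h' | h'⟩ := exists_diff (h A' hA')
  · exfalso
    have h1 : ((q.1, res S q.2) : PP I J) ∈ A' l :=
      ⟨fun x hx => hx.1, q.2, hq, fun x hx hxS => ⟨hxS, hx⟩, h'.1⟩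
    exact not_meets_of_fnot h'.2 (meets_of_le h1 ⟨le_rfl, fun x hx => hx.2⟩)
  · obtain ⟨r1, hr1, u, ⟨hu1, t, ht1, ht2, ht3⟩, hru⟩ := h'.1 q le_rfl
    have hle : ((r1.1, mix S r1.2 t) : PP I J) ≤ (u.1, t) := by
      refine ⟨hru.1, fun x hx => ?_⟩
      by_cases hxS : x.1 ∈ S
      · exact Or.inl ⟨hxS, hru.2 (ht2 x hx hxS)⟩
      · exact Or.inr ⟨hxS, hx⟩
    refine ⟨l, r1.1, mix S r1.2 t, r1.2, hle.trans ht1, hr1.trans hq, ?_,
      down_meets _ _ ht3 _ hle, down_fnot _ _ h'.2 _ hr1⟩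
    intro x hx
    constructor
    · rintro (h1 | h1)
      · exact h1.2
      · exact absurd hx h1.1
    · intro h1
      exact Or.inl ⟨hx, h1⟩

/-- If all proper initial segments of a subset of `K` have names using only the coordinates in
`S`, then so does the whole set. -/
theorem branch {I J K : Type} [LinearOrder K] [WellFoundedLT K] (hK : Long K) (S : Set J)
    (A : K → Set (PP I J)) (p : PP I J)
    (h : ∀ k : K, ∀ q ≤ p, ∃ r ≤ q, ∃ B : K → Set (PP I J), (∀ l, On S (B l)) ∧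
      ∀ l < k, ∀ r' ≤ r, (r' ∈ meets (A l) ↔ r' ∈ meets (B l))) :
    ∃ q ≤ p, ∃ B : K → Set (PP I J), (∀ l, On S (B l)) ∧ q ∈ Same A B := by
  classical
  by_contra hcon
  push Not at hcon
  have hstep : ∀ k : K, ∃ (ξ : K) (s : FC I) (t0 t1 : CC J) (B : K → Set (PP I J)),
      k ≤ ξ ∧ (∀ l, On S (B l)) ∧ (∀ x : J × Bool, x.1 ∈ S → (x ∈ t0.g ↔ x ∈ t1.g)) ∧
      ((s, t0) : PP I J) ∈ meets (A ξ) ∧ ((s, t1) : PP I J) ∈ fnot (meets (A ξ)) ∧
      (∀ l < k, ∀ r' ≤ ((s, t0) : PP I J), (r' ∈ meets (A l) ↔ r' ∈ meets (B l))) ∧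
      (∀ l < k, ∀ r' ≤ ((s, t1) : PP I J), (r' ∈ meets (A l) ↔ r' ∈ meets (B l))) := by
    intro k
    obtain ⟨r, hr, B, hB, hrB⟩ := h k p le_rfl
    obtain ⟨l, s, t0, t1, h0, h1, hS, hm0, hm1⟩ := split S A r (fun B' hB' => hcon r hr B' hB')
    refine ⟨l, s, t0, t1, B, ?_, hB, hS, hm0, hm1, fun l' hl' r' hr' => hrB l' hl' r' (hr'.trans h0),
      fun l' hl' r' hr' => hrB l' hl' r' (hr'.trans h1)⟩
    by_contra hlt
    rw [not_le] at hlt
    have h2 : ((s, t0) : PP I J) ∈ meets (B l) := (hrB l hlt _ h0).1 hm0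
    have h3 : ((s, t1) : PP I J) ∈ meets (B l) :=
      meets_change (hB l) h2 fun x hx hxS => (hS x hxS).1 hx
    exact not_meets_of_fnot hm1 ((hrB l hlt _ h1).2 h3)
  choose ξ s t0 t1 B h1 h2 h3 h4 h5 h6 h7 using hstep
  have hne : Nonempty K := by
    by_contra hemp
    rw [not_nonempty_iff] at hemp
    exact hK.large (by rw [Cardinal.mk_eq_zero]; exact zero_le)
  obtain ⟨f, hf⟩ := Pool.Agent.Helper669.KDelta.rec_choice (ι := K) (β := K) (r := (· < ·))
    wellFounded_lt (fun j f b => ∀ i < j, ξ (f i) < b)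
    (by
      intro i f g b hfg hb j hj
      rw [← hfg j hj]
      exact hb j hj)
    (by
      intro j f _
      obtain ⟨b, hb⟩ := hK.bdd ((fun i => ξ (f i)) '' Iio j)
        (Cardinal.mk_image_le.trans (hK.small j))
      exact ⟨b, fun i hi => hb _ ⟨i, hi, rfl⟩⟩)
  have key : ∀ i j, i < j → Fn ((s (f i)).g ∪ (s (f j)).g) → Fn ((t0 (f i)).g ∪ (t0 (f j)).g) →
      Fn ((t1 (f i)).g ∪ (t1 (f j)).g) → False := by
    intro i j hij g1 g2 g3
    let a := FC.union _ _ g1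
    let c0 := CC.union _ _ g2
    let c1 := CC.union _ _ g3
    have hl0 : ((a, c0) : PP I J) ≤ (s (f i), t0 (f i)) := ⟨subset_union_left, subset_union_left⟩
    have hl1 : ((a, c1) : PP I J) ≤ (s (f i), t1 (f i)) := ⟨subset_union_left, subset_union_left⟩
    have hr0 : ((a, c0) : PP I J) ≤ (s (f j), t0 (f j)) := ⟨subset_union_right, subset_union_right⟩
    have hr1 : ((a, c1) : PP I J) ≤ (s (f j), t1 (f j)) := ⟨subset_union_right, subset_union_right⟩
    have hlt : ξ (f i) < f j := hf j i hij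
    have e1 : ((a, c0) : PP I J) ∈ meets (A (ξ (f i))) := down_meets _ _ (h4 (f i)) _ hl0
    have e2 : ((a, c0) : PP I J) ∈ meets (B (f j) (ξ (f i))) := (h6 (f j) _ hlt _ hr0).1 e1
    have e3 : ((a, c1) : PP I J) ∈ meets (B (f j) (ξ (f i))) := by
      refine meets_change (h2 (f j) _) e2 fun x hx hxS => ?_
      rcases hx with hx | hx
      · exact Or.inl ((h3 (f i) x hxS).1 hx)
      · exact Or.inr ((h3 (f j) x hxS).1 hx)
    have e4 : ((a, c1) : PP I J) ∈ meets (A (ξ (f i))) := (h7 (f j) _ hlt _ hr1).2 e3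
    exact h5 (f i) _ hl1 e4
  obtain ⟨i, j, hne', g1, g2, g3⟩ := exists_compat3 hK.large (fun i => s (f i))
    (fun i => t0 (f i)) (fun i => t1 (f i))
  rcases lt_or_gt_of_ne hne' with hlt | hlt
  · exact key i j hlt g1 g2 g3
  · exact key j i hlt (by rwa [union_comm]) (by rwa [union_comm]) (by rwa [union_comm])

/-- Small names: names for subsets of an initial segment of `K`, coded by a function. -/
def smallName {P K Θ : Type} (j : K → Θ) (w : Θ → Θ → Option P) (l : K) : Set P :=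
  {r | ∃ i, w (j l) i = some r}

theorem pp_cc {I J : Type} (E : Type) (f : E → PP I J) (hE : ¬ #E ≤ 𝔠) :
    ∃ i j, i ≠ j ∧ ∃ r, r ≤ f i ∧ r ≤ f j := exists_compat hE f

theorem exists_smallName {I J K Θ : Type} (hΘ : #Θ = 𝔠) (D : Set K) (j : K → Θ)
    (hj : Set.InjOn j D) (A : K → Set (PP I J)) :
    ∃ w : Θ → Θ → Option (PP I J), ∀ l ∈ D, ∀ u, u ∈ meets (A l) ↔ u ∈ meets (smallName j w l) := by
  classical
  have h1 : ∀ l, ∃ Z ⊆ meets (A l), #Z ≤ 𝔠 ∧ ∀ d ∈ meets (A l), ∃ a ∈ Z, ∃ r, r ≤ a ∧ r ≤ d :=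
    fun l => exists_antichain pp_cc _
  choose Z hZ1 hZ2 hZ3 using h1
  have h2 : ∀ l, ∃ e : Θ → Option (PP I J), ∀ r, r ∈ Z l ↔ ∃ i, e i = some r := by
    intro l
    have h3 : #(Z l) ≤ #Θ := by rw [hΘ]; exact hZ2 l
    obtain ⟨⟨g, hg⟩⟩ := h3
    refine ⟨fun i => if h : ∃ z : Z l, g z = i then some (h.choose : PP I J) else none,
      fun r => ⟨fun hr => ⟨g ⟨r, hr⟩, ?_⟩, ?_⟩⟩
    · have hex : ∃ z : Z l, g z = g ⟨r, hr⟩ := ⟨_, rfl⟩
      beta_reduce
      rw [dif_pos hex, Option.some.injEq]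
      exact congrArg Subtype.val (hg hex.choose_spec)
    · rintro ⟨i, hi⟩
      beta_reduce at hi
      by_cases hex : ∃ z : Z l, g z = i
      · rw [dif_pos hex, Option.some.injEq] at hi
        rw [← hi]
        exact hex.choose.2
      · rw [dif_neg hex] at hi
        exact absurd hi (by simp)
  choose e he using h2
  refine ⟨fun θ => if h : ∃ l ∈ D, j l = θ then e h.choose else fun _ => none, ?_⟩
  intro l hl u
  have hex : ∃ l' ∈ D, j l' = j l := ⟨l, hl, rfl⟩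
  have hch : hex.choose = l := hj hex.choose_spec.1 hl hex.choose_spec.2
  have hname : ∀ r, r ∈ smallName j (fun θ => if h : ∃ l ∈ D, j l = θ then e h.choose
      else fun _ => none) l ↔ r ∈ Z l := by
    intro r
    rw [he l r]
    simp only [smallName, Set.mem_ofPred_eq]
    rw [dif_pos hex, hch]
  constructor
  · intro hu q hq
    obtain ⟨a, ha, r, hr1, hr2⟩ := hZ3 l q (down_meets _ _ hu _ hq)
    exact ⟨r, hr2, a, (hname a).2 ha, hr1⟩
  · intro hu
    refine meets_of_dense fun q hq => ?_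
    obtain ⟨r, hr, s, hs, hrs⟩ := hu q hq
    exact ⟨r, hr, down_meets _ _ (hZ1 l ((hname s).1 hs)) _ hrs⟩

end Pool.Agent.TH785.WC
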