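import Mathlib
import Pool.Agent.TH785.WC.Branch

/-!
# The power set of `K` has no long chains
-/

set_option autoImplicit false

namespace Pool.Agent.TH785.WC

open Cardinal Set
open Pool.Agent.Helper669.Forcing

theorem mk_prod_bool_le {α : Type} {k : Cardinal.{0}} (hk : ℵ₀ ≤ k) (h : #α ≤ k) :
    #(α × Bool) ≤ k := by
  rw [Cardinal.mk_prod, Cardinal.lift_id, Cardinal.lift_id]
  calc #α * #Bool ≤ k * k := mul_le_mul' h (by
        rw [Cardinal.mk_bool]
        exact (Cardinal.natCast_lt_aleph0 (n := 2)).le.trans hk)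
    _ = k := Cardinal.mul_eq_self hk

/-- the number of the conditions living on `S` -/
theorem mk_on {I J : Type} {k : Cardinal.{0}} (hk : ℵ₀ ≤ k) (hI : #I ≤ k) (S : Set J)
    (hS : #S ≤ k) : #{p : PP I J // ∀ x ∈ p.2.g, x.1 ∈ S} ≤ 2 ^ k := by
  have h1 : #{p : PP I J // ∀ x ∈ p.2.g, x.1 ∈ S} ≤ #(Set (I × Bool) × Set (S × Bool)) := by
    refine Cardinal.mk_le_of_injective
      (f := fun p => (p.1.1.g, {x : S × Bool | ((x.1 : J), x.2) ∈ p.1.2.g})) ?_
    rintro ⟨⟨p1, p2⟩, hp⟩ ⟨⟨q1, q2⟩, hq⟩ heq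
    simp only [Prod.mk.injEq] at heq
    apply Subtype.ext
    refine Prod.ext (FC.ext heq.1) (CC.ext ?_)
    have h2 := heq.2
    ext ⟨x, b⟩
    constructor
    · intro hx
      have h3 : ((⟨x, hp _ hx⟩ : S), b) ∈ {x : S × Bool | ((x.1 : J), x.2) ∈ p2.g} := hx
      rw [h2] at h3
      exact h3
    · intro hx
      have h3 : ((⟨x, hq _ hx⟩ : S), b) ∈ {x : S × Bool | ((x.1 : J), x.2) ∈ q2.g} := hx
      rw [← h2] at h3
      exact h3
  refine h1.trans ?_
  rw [Cardinal.mk_prod, Cardinal.lift_id, Cardinal.lift_id, Cardinal.mk_set, Cardinal.mk_set]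
  have h2 : (2 : Cardinal.{0}) ^ #(I × Bool) ≤ 2 ^ k :=
    Cardinal.power_le_power_left two_ne_zero (mk_prod_bool_le hk hI)
  have h3 : (2 : Cardinal.{0}) ^ #(S × Bool) ≤ 2 ^ k :=
    Cardinal.power_le_power_left two_ne_zero (mk_prod_bool_le hk hS)
  refine (mul_le_mul' h2 h3).trans ?_
  rw [← Cardinal.power_add, Cardinal.add_eq_self hk]

/-- the number of the names using only the coordinates in `S` -/
theorem mk_names {I J K : Type} {k : Cardinal.{0}} (hk : ℵ₀ ≤ k) (hI : #I ≤ k) (hK : #K ≤ k)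
    (S : Set J) (hS : #S ≤ k) :
    #{B : K → Set (PP I J) // ∀ l, On S (B l)} ≤ 2 ^ ((2 : Cardinal.{0}) ^ k) := by
  have h1 : #{B : K → Set (PP I J) // ∀ l, On S (B l)} ≤
      #(K → Set {p : PP I J // ∀ x ∈ p.2.g, x.1 ∈ S}) := by
    refine Cardinal.mk_le_of_injective (f := fun B l => Subtype.val ⁻¹' (B.1 l)) ?_
    have key : ∀ B B' : {B : K → Set (PP I J) // ∀ l, On S (B l)},
        (∀ l, (Subtype.val ⁻¹' (B.1 l) : Set {p : PP I J // ∀ x ∈ p.2.g, x.1 ∈ S}) =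
          Subtype.val ⁻¹' (B'.1 l)) → ∀ l, B.1 l ⊆ B'.1 l := by
      intro B B' h l p hp
      have h3 : (⟨p, B.2 l p hp⟩ : {p : PP I J // ∀ x ∈ p.2.g, x.1 ∈ S}) ∈
        (Subtype.val ⁻¹' (B.1 l) : Set {p : PP I J // ∀ x ∈ p.2.g, x.1 ∈ S}) := hp
      rw [h l] at h3
      exact h3
    intro B B' heq
    apply Subtype.ext
    funext l
    exact Set.Subset.antisymm (key B B' (fun l => congrFun heq l) l)
      (key B' B (fun l => (congrFun heq l).symm) l)
  refine h1.trans ?_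
  rw [← Cardinal.power_def, Cardinal.mk_set, ← Cardinal.power_mul]
  refine Cardinal.power_le_power_left two_ne_zero ?_
  have h2k : k ≤ 2 ^ k := (Cardinal.cantor k).le
  calc #{p : PP I J // ∀ x ∈ p.2.g, x.1 ∈ S} * #K ≤ 2 ^ k * 2 ^ k :=
        mul_le_mul' (mk_on hk hI S hS) (hK.trans h2k)
    _ = 2 ^ k := Cardinal.mul_eq_self (hk.trans h2k)

/-- the sentence: every member of the family which contains `k` contains `l` -/
def ESent {P K X : Type} [Preorder P] (A : X → K → Set P) (l k : K) : Set P :=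
  fall fun x => fimp (meets (A x k)) (meets (A x l))

theorem down_ESent {P K X : Type} [Preorder P] (A : X → K → Set P) (l k : K) :
    Down (ESent A l k) := down_fall fun _ => down_fimp _ _

theorem mem_ESent {P K X : Type} [Preorder P] {A : X → K → Set P} {l k : K} {p : P} :
    p ∈ ESent A l k ↔ ∀ x, ∀ q ≤ p, q ∈ meets (A x k) → q ∈ meets (A x l) := by
  constructor
  · intro h x q hq hA
    refine meets_of_dense fun r hr => ?_
    obtain ⟨r', hr', h'⟩ := mem_fimp.1 (h x) r (hr.trans hq) (down_meets _ _ hA _ hr)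
    exact ⟨r', hr', h'⟩
  · intro h x
    exact mem_fimp.2 fun q hq hA => ⟨q, le_rfl, h x q hq hA⟩

theorem ESent_of_dense {P K X : Type} [Preorder P] {A : X → K → Set P} {l k : K} {p : P}
    (h : ∀ q ≤ p, ∃ r ≤ q, r ∈ ESent A l k) : p ∈ ESent A l k := by
  rw [mem_ESent]
  intro x q hq hA
  refine meets_of_dense fun r hr => ?_
  obtain ⟨r', hr', h'⟩ := h r (hr.trans hq)
  exact ⟨r', hr', mem_ESent.1 h' x r' le_rfl (down_meets _ _ hA _ (hr'.trans hr))⟩

/-- The cut of `K` given by a point of `K` is named using few coordinates. -/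
theorem exists_S {I J K X : Type} {k : Cardinal.{0}} (hk : 𝔠 ≤ k) (hK : #K ≤ k)
    (A : X → K → Set (PP I J)) : ∃ S : Set J, #S ≤ k ∧ ∀ m : K, ∃ B : K → Set (PP I J),
      (∀ l, On S (B l)) ∧ ∀ l q, q ∈ ESent A l m ↔ q ∈ meets (B l) := by
  classical
  have hk0 : ℵ₀ ≤ k := aleph0_le_continuum.trans hk
  have h1 : ∀ l m, ∃ Z ⊆ {u | u ∈ ESent A l m ∨ u ∈ fnot (ESent A l m)}, #Z ≤ 𝔠 ∧
      ∀ d ∈ {u | u ∈ ESent A l m ∨ u ∈ fnot (ESent A l m)}, ∃ a ∈ Z, ∃ r, r ≤ a ∧ r ≤ d :=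
    fun l m => exists_antichain pp_cc _
  choose Z hZ1 hZ2 hZ3 using h1
  let S : Set J := ⋃ x : K × K, ⋃ a ∈ Z x.1 x.2, Prod.fst '' a.2.g
  have hS : #S ≤ k := by
    refine Pool.Agent.Helper669.KDelta.small_iUnion hk0 ?_ _ fun x => ?_
    · rw [Cardinal.mk_prod, Cardinal.lift_id]
      exact (mul_le_mul' hK hK).trans (Cardinal.mul_eq_self hk0).le
    · refine Pool.Agent.Helper669.KDelta.small_biUnion hk0 _ ((hZ2 _ _).trans hk) _ fun a _ => ?_
      exact Cardinal.mk_image_le.trans ((Cardinal.le_aleph0_iff_set_countable.2 a.2.cnt).trans hk0)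
  refine ⟨S, hS, fun m => ⟨fun l => {u | u ∈ Z l m ∧ u ∈ ESent A l m}, ?_, ?_⟩⟩
  · rintro l u ⟨hu, -⟩ x hx
    simp only [S, mem_iUnion]
    exact ⟨(l, m), u, hu, x, hx, rfl⟩
  · intro l q
    constructor
    · intro hq q' hq'
      obtain ⟨a, ha, r, hr1, hr2⟩ := hZ3 l m q' (Or.inl (down_ESent _ _ _ _ hq _ hq'))
      refine ⟨r, hr2, a, ⟨ha, ?_⟩, hr1⟩
      rcases hZ1 l m ha with h | h
      · exact h
      · exact absurd (down_ESent _ _ _ _ hq _ (hr2.trans hq')) (h r hr1)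
    · intro hq
      refine ESent_of_dense fun q' hq' => ?_
      obtain ⟨r, hr, s, hs, hrs⟩ := hq q' hq'
      exact ⟨r, hr, down_ESent _ _ _ _ hs.2 _ hrs⟩

/-- The power set of `K` has no chain of size larger than `m` in the extension. -/
theorem no_chain {I J K X Θ : Type} [LinearOrder K] [WellFoundedLT K] (hK : Long K)
    (hΘ : #Θ = 𝔠) {k m : Cardinal.{0}} (hk : 𝔠 ≤ k) (hI : #I ≤ k) (hKk : #K ≤ k)
    (hm : (2 : Cardinal.{0}) ^ ((2 : Cardinal.{0}) ^ k) ≤ m)
    (hP : #(PP I J) ≤ m) (hmc : m ^ (𝔠 : Cardinal.{0}) ≤ m) (hX : m < #X) (p : PP I J) :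
    p ∈ fall fun A : X → K → Set (PP I J) =>
      fimp (fall fun x => fall fun x' => fall fun _ : x ≠ x' => fnot (Same (A x) (A x')))
      (fnot (fall fun x => fall fun x' => for' (Sub (A x) (A x')) (Sub (A x') (A x)))) := by
  classical
  intro A
  refine mem_fimp.2 fun q0 hq0 hdist => ?_
  by_contra hcon
  have hex : ∃ p0 ≤ q0, p0 ∈ fall fun x => fall fun x' =>
      for' (Sub (A x) (A x')) (Sub (A x') (A x)) := by
    by_contra h
    push Not at h
    exact hcon ⟨q0, le_rfl, h⟩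
  obtain ⟨p0, hp0, hcomp⟩ := hex
  have hdist0 : ∀ x x', x ≠ x' → ∀ q ≤ p0, q ∉ Same (A x) (A x') := fun x x' hne q hq =>
    hdist x x' hne q (hq.trans hp0)
  have hk0 : ℵ₀ ≤ k := aleph0_le_continuum.trans hk
  have hkm : k ≤ m := (Cardinal.cantor k).le.trans ((Cardinal.cantor _).le.trans hm)
  have hm0 : ℵ₀ ≤ m := hk0.trans hkm
  obtain ⟨S, hS, hcut⟩ := exists_S hk hKk A
  choose C hC1 hC2 using hcut
  -- the injections of the initial segments into `Θ`
  have hj : ∀ a : K, ∃ j : K → Θ, Set.InjOn j (Iio a) := by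
    intro a
    have h1 : #(Iio a) ≤ #Θ := by rw [hΘ]; exact hK.small a
    obtain ⟨⟨g, hg⟩⟩ := h1
    have hne : Nonempty Θ := by
      rw [← Cardinal.mk_ne_zero_iff, hΘ]
      exact Cardinal.continuum_ne_zero
    refine ⟨fun l => if h : l ∈ Iio a then g ⟨l, h⟩ else Classical.arbitrary Θ, ?_⟩
    intro l hl l' hl' heq
    beta_reduce at heq
    rw [dif_pos hl, dif_pos hl'] at heq
    exact Subtype.ext_iff.1 (hg heq)
  choose j hj using hj
  -- the crucial step
  have hstep : ∀ (x y : X) (a z : K) (q1 : PP I J), q1 ≤ p0 → q1 ∈ fnot (meets (A x z)) →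
      q1 ∈ meets (A y z) → (∀ l < a, ∀ u, (u ∈ meets (A x l) ↔ u ∈ meets (A y l))) →
      ∀ l < a, ∀ r' ≤ q1, (r' ∈ meets (A x l) ↔ r' ∈ meets (C z l)) := by
    intro x y a z q1 hq1 hx hy hxy l hl r' hr'
    rw [← hC2 z l r']
    constructor
    · intro hxl
      rw [mem_ESent]
      intro w q hq hw
      refine meets_of_dense fun r hr => ?_
      obtain ⟨r3, hr3, h3 | h3⟩ := mem_for.1 (hcomp x w) r (hr.trans (hq.trans (hr'.trans hq1)))
      · exact ⟨r3, hr3, mem_Sub.1 h3 l r3 le_rfl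
          (down_meets _ _ hxl _ (hr3.trans (hr.trans hq)))⟩
      · exfalso
        have h4 : r3 ∈ meets (A x z) := mem_Sub.1 h3 z r3 le_rfl
          (down_meets _ _ hw _ (hr3.trans hr))
        exact hx r3 (hr3.trans (hr.trans (hq.trans hr'))) h4
    · intro hE
      have h5 : r' ∈ meets (A y l) := mem_ESent.1 hE y r' le_rfl (down_meets _ _ hy _ hr')
      exact (hxy l hl r').2 h5
  -- the data attached to the members of the family
  have hdata : ∀ x : X,
      (∃ q ≤ p0, ∃ B : {B : K → Set (PP I J) // ∀ l, On S (B l)}, q ∈ Same (A x) B.1) ∨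
      ∃ (a : K), ∃ q ≤ p0, ∃ (w : Θ → Θ → Option (PP I J)),
        (∀ r ≤ q, ∀ B : K → Set (PP I J), (∀ l, On S (B l)) →
          ¬ ∀ l < a, ∀ r' ≤ r, (r' ∈ meets (A x l) ↔ r' ∈ meets (B l))) ∧
        (∀ l < a, ∀ u, (u ∈ meets (A x l) ↔ u ∈ meets (smallName (j a) w l))) := by
    intro x
    by_cases hcase : ∃ (a : K), ∃ q ≤ p0, ∀ r ≤ q, ∀ B : K → Set (PP I J), (∀ l, On S (B l)) →
        ¬ ∀ l < a, ∀ r' ≤ r, (r' ∈ meets (A x l) ↔ r' ∈ meets (B l))
    · obtain ⟨a, q, hq, h⟩ := hcase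
      obtain ⟨w, hw⟩ := exists_smallName hΘ (Iio a) (j a) (hj a) (A x)
      exact Or.inr ⟨a, q, hq, w, h, fun l hl u => hw l hl u⟩
    · left
      push Not at hcase
      obtain ⟨q, hq, B, hB, h⟩ := branch hK S (A x) p0 (by
        intro a q hq
        obtain ⟨r, hr, B, hB, h⟩ := hcase a q hq
        exact ⟨r, hr, B, hB, h⟩)
      exact ⟨q, hq, ⟨B, hB⟩, h⟩
  let D : Type := (PP I J × {B : K → Set (PP I J) // ∀ l, On S (B l)}) ⊕
    (K × PP I J × (Θ → Θ → Option (PP I J)))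
  have hD : #D ≤ m := by
    have e1 : #(PP I J × {B : K → Set (PP I J) // ∀ l, On S (B l)}) ≤ m := by
      rw [Cardinal.mk_prod, Cardinal.lift_id, Cardinal.lift_id]
      exact (mul_le_mul' hP ((mk_names hk0 hI hKk S hS).trans hm)).trans
        (Cardinal.mul_eq_self hm0).le
    have e2 : #(Option (PP I J)) ≤ m := by
      rw [Cardinal.mk_option]
      exact (add_le_add hP (Cardinal.one_le_aleph0.trans hm0)).trans (Cardinal.add_eq_self hm0).le
    have e3 : #(Θ → Option (PP I J)) ≤ m := by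
      rw [← Cardinal.power_def, hΘ]
      exact (Cardinal.power_le_power_right e2).trans hmc
    have e4 : #(Θ → Θ → Option (PP I J)) ≤ m := by
      rw [← Cardinal.power_def, hΘ]
      exact (Cardinal.power_le_power_right e3).trans hmc
    have e5 : #(PP I J × (Θ → Θ → Option (PP I J))) ≤ m := by
      rw [Cardinal.mk_prod, Cardinal.lift_id, Cardinal.lift_id]
      exact (mul_le_mul' hP e4).trans (Cardinal.mul_eq_self hm0).le
    have e6 : #(K × PP I J × (Θ → Θ → Option (PP I J))) ≤ m := by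
      rw [Cardinal.mk_prod, Cardinal.lift_id, Cardinal.lift_id]
      exact (mul_le_mul' (hKk.trans hkm) e5).trans (Cardinal.mul_eq_self hm0).le
    show #((PP I J × {B : K → Set (PP I J) // ∀ l, On S (B l)}) ⊕
      (K × PP I J × (Θ → Θ → Option (PP I J)))) ≤ m
    rw [Cardinal.mk_sum, Cardinal.lift_id, Cardinal.lift_id]
    exact (add_le_add e1 e6).trans (Cardinal.add_eq_self hm0).le
  let Good : X → D → Prop := fun x d => match d with
    | Sum.inl (q, B) => q ≤ p0 ∧ q ∈ Same (A x) B.1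
    | Sum.inr (a, q, w) => q ≤ p0 ∧ (∀ r ≤ q, ∀ B : K → Set (PP I J), (∀ l, On S (B l)) →
          ¬ ∀ l < a, ∀ r' ≤ r, (r' ∈ meets (A x l) ↔ r' ∈ meets (B l))) ∧
        (∀ l < a, ∀ u, (u ∈ meets (A x l) ↔ u ∈ meets (smallName (j a) w l)))
  have hgood : ∀ x, ∃ d, Good x d := by
    intro x
    rcases hdata x with ⟨q, hq, B, h⟩ | ⟨a, q, hq, w, h1, h2⟩
    · exact ⟨Sum.inl (q, B), hq, h⟩
    · exact ⟨Sum.inr (a, q, w), hq, h1, h2⟩
  choose F hF using hgood
  have hninj : ¬ Function.Injective F := fun h =>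
    absurd ((Cardinal.mk_le_of_injective h).trans hD) (not_le.2 hX)
  simp only [Function.Injective, not_forall] at hninj
  obtain ⟨x, y, hxy, hne⟩ := hninj
  have hgx := hF x
  have hgy := hF y
  rw [← hxy] at hgy
  rcases hFx : F x with ⟨q, B⟩ | ⟨a, q, w⟩
  · rw [hFx] at hgx hgy
    obtain ⟨hq, hx⟩ := hgx
    obtain ⟨-, hy⟩ := hgy
    apply hdist0 x y hne q hq
    rw [mem_Same] at hx hy ⊢
    intro l r hr
    exact (hx l r hr).trans (hy l r hr).symm
  · rw [hFx] at hgx hgy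
    obtain ⟨hq, hx1, hx2⟩ := hgx
    obtain ⟨-, hy1, hy2⟩ := hgy
    obtain ⟨z, q1, hq1, h' | h'⟩ := exists_diff (hdist0 x y hne q hq)
    · refine hy1 q1 hq1 (C z) (hC1 z) (hstep y x a z q1 (hq1.trans hq) h'.2 h'.1 ?_)
      intro l hl u
      exact (hy2 l hl u).trans (hx2 l hl u).symm
    · refine hx1 q1 hq1 (C z) (hC1 z) (hstep x y a z q1 (hq1.trans hq) h'.2 h'.1 ?_)
      intro l hl u
      exact (hx2 l hl u).trans (hy2 l hl u).symm

end Pool.Agent.TH785.WC
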