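import Mathlib
import Pool.Agent.TH785.WC.Chain

/-!
# The remaining clauses, and the forcing theorem
-/

set_option autoImplicit false

namespace Pool.Agent.TH785.WC

open Cardinal Set
open Pool.Agent.Helper669.Forcing

/-- adding one value to a finite partial function -/
theorem FC.extend {D : Type} (p : FC D) (d : D) (b : Bool) (hd : ∀ c, (d, c) ∉ p.g) :
    ∃ q : FC D, q.g = insert (d, b) p.g := by
  refine ⟨⟨insert (d, b) p.g, p.fin.insert _, ?_⟩, rfl⟩
  rintro e c c' (h | h) (h' | h')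
  · simp only [Prod.mk.injEq] at h h'
    rw [h.2, h'.2]
  · simp only [Prod.mk.injEq] at h
    rw [h.1] at h'
    exact absurd h' (hd _)
  · simp only [Prod.mk.injEq] at h'
    rw [h'.1] at h
    exact absurd h (hd _)
  · exact p.fn e c c' h h'

/-- adding one value to a countable partial function -/
theorem CC.extend {D : Type} (p : CC D) (d : D) (b : Bool) (hd : ∀ c, (d, c) ∉ p.g) :
    ∃ q : CC D, q.g = insert (d, b) p.g := by
  refine ⟨⟨insert (d, b) p.g, p.cnt.insert _, ?_⟩, rfl⟩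
  rintro e c c' (h | h) (h' | h')
  · simp only [Prod.mk.injEq] at h h'
    rw [h.2, h'.2]
  · simp only [Prod.mk.injEq] at h
    rw [h.1] at h'
    exact absurd h' (hd _)
  · simp only [Prod.mk.injEq] at h'
    rw [h'.1] at h
    exact absurd h (hd _)
  · exact p.fn e c c' h h'

theorem real_inj {K J : Type} (p : PP (K × ℕ) J) :
    p ∈ fex fun e : K → ℕ → Set (PP (K × ℕ) J) => fall fun k => fall fun k' =>
      fall fun _ : k ≠ k' => fnot (Same (e k) (e k')) := by
  refine mem_fex_of_mem (fun k n => {r | (((k, n) : K × ℕ), true) ∈ r.1.g}) ?_ ?_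
  · exact down_fall fun _ => down_fall fun _ => down_fall fun _ => down_fnot _
  · intro k k' hne
    refine mem_fnot_Same fun q _ => ?_
    have hfin : (Prod.snd '' (Prod.fst '' q.1.g)).Finite := (q.1.fin.image _).image _
    obtain ⟨n, hn⟩ := hfin.exists_notMem
    have h1 : ∀ k'' c, (((k'', n) : K × ℕ), c) ∉ q.1.g := by
      intro k'' c h
      exact hn ⟨_, ⟨_, h, rfl⟩, rfl⟩
    obtain ⟨r1, hr1⟩ := q.1.extend (k, n) true (h1 k)
    obtain ⟨r2, hr2⟩ := r1.extend (k', n) false (by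
      intro c hc
      rw [hr1] at hc
      rcases hc with hc | hc
      · simp only [Prod.mk.injEq, and_true] at hc
        exact hne hc.1.symm
      · exact h1 k' c hc)
    have hle : q.1.g ⊆ r2.g := by
      rw [hr2, hr1]
      exact fun x hx => Or.inr (Or.inr hx)
    refine ⟨n, (r2, q.2), ⟨hle, le_rfl⟩, Or.inl ⟨meets_of_mem ?_, ?_⟩⟩
    · show (((k, n) : K × ℕ), true) ∈ r2.g
      rw [hr2, hr1]
      exact Or.inr (Or.inl rfl)
    · intro u hu hm
      obtain ⟨v, hv, s, hs, hvs⟩ := hm u le_rfl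
      have h2 : (((k', n) : K × ℕ), false) ∈ v.1.g := by
        refine (hv.trans hu).1 ?_
        show _ ∈ r2.g
        rw [hr2]
        exact Or.inl rfl
      have h3 : (((k', n) : K × ℕ), true) ∈ v.1.g := hvs.1 hs
      exact absurd (v.1.fn _ _ _ h2 h3) (by simp)

theorem pow_inj {I K M X : Type} (hK : ¬ #K ≤ ℵ₀) (c : K → K × K) (hc : Function.Surjective c)
    (φ : X → K → M) (hφ : Function.Injective φ) (p : PP I (M × K)) :
    p ∈ fex fun a : X → K → Set (PP I (M × K)) => fall fun x => fall fun x' =>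
      fall fun _ : x ≠ x' => fnot (Same (a x) (a x')) := by
  refine mem_fex_of_mem (fun x l => {r | ((φ x (c l).1, (c l).2), true) ∈ r.2.g}) ?_ ?_
  · exact down_fall fun _ => down_fall fun _ => down_fall fun _ => down_fnot _
  · intro x x' hne
    refine mem_fnot_Same fun q _ => ?_
    obtain ⟨k, hk⟩ : ∃ k, φ x k ≠ φ x' k := by
      by_contra hcon
      push Not at hcon
      exact hne (hφ (funext hcon))
    have hcnt : (Prod.snd '' (Prod.fst '' q.2.g)).Countable := (q.2.cnt.image _).image _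
    obtain ⟨j, hj⟩ : ∃ j, j ∉ Prod.snd '' (Prod.fst '' q.2.g) := by
      by_contra hcon
      push Not at hcon
      apply hK
      rw [Cardinal.mk_le_aleph0_iff]
      rw [← Set.countable_univ_iff]
      exact hcnt.mono fun j _ => hcon j
    have h1 : ∀ m b, ((m, j), b) ∉ q.2.g := by
      intro m b h
      exact hj ⟨_, ⟨_, h, rfl⟩, rfl⟩
    obtain ⟨r1, hr1⟩ := q.2.extend (φ x k, j) true (h1 _)
    obtain ⟨r2, hr2⟩ := r1.extend (φ x' k, j) false (by
      intro b hb
      rw [hr1] at hb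
      rcases hb with hb | hb
      · simp only [Prod.mk.injEq, and_true] at hb
        exact hk hb.1.symm
      · exact h1 _ b hb)
    have hle : q.2.g ⊆ r2.g := by
      rw [hr2, hr1]
      exact fun x hx => Or.inr (Or.inr hx)
    obtain ⟨l, hl⟩ := hc (k, j)
    have hl1 : (c l).1 = k := by rw [hl]
    have hl2 : (c l).2 = j := by rw [hl]
    refine ⟨l, (q.1, r2), ⟨le_rfl, hle⟩, Or.inl ⟨meets_of_mem ?_, ?_⟩⟩
    · show ((φ x (c l).1, (c l).2), true) ∈ r2.g
      rw [hl1, hl2, hr2, hr1]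
      exact Or.inr (Or.inl rfl)
    · intro u hu hm
      obtain ⟨v, hv, s, hs, hvs⟩ := hm u le_rfl
      have h2 : ((φ x' k, j), false) ∈ v.2.g := by
        refine (hv.trans hu).2 ?_
        show _ ∈ r2.g
        rw [hr2]
        exact Or.inl rfl
      have h3 : ((φ x' (c l).1, (c l).2), true) ∈ v.2.g := hvs.2 hs
      rw [hl1, hl2] at h3
      exact absurd (v.2.fn _ _ _ h2 h3) (by simp)

theorem large {I J K L : Type} {k : Cardinal.{0}} (hk : 𝔠 ≤ k) (hK : #K = k)
    (hL : #L = Order.succ k) (p : PP I J) :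
    p ∈ fnot (fex fun R : L → K → Set (PP I J) => fand (IsFun R) (IsInj R)) := by
  intro q _ hex
  obtain ⟨r, _, R, hfun, hinj⟩ := mem_fex.1 hex q le_rfl
  have h1 : ∀ l : L, ∃ u ≤ r, ∃ a, u ∈ meets (R l a) := fun l => IsFun.total hfun l
  choose u hu a ha using h1
  have hk0 : ℵ₀ ≤ k := aleph0_le_continuum.trans hk
  have hreg : (Order.succ k).IsRegular := Cardinal.isRegular_succ hk0
  obtain ⟨b, hb⟩ := Cardinal.infinite_pigeonhole_card a (Order.succ k) hL.ge
    (hk0.trans (Order.le_succ k)) (by rw [hreg.cof_ord, hK]; exact Order.lt_succ k)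
  have hE : ¬ #(a ⁻¹' {b}) ≤ 𝔠 := by
    intro h
    exact absurd ((hb.trans h).trans hk) (not_le.2 (Order.lt_succ k))
  obtain ⟨i, j, hne, v, hvi, hvj⟩ := exists_compat hE fun i => u i.1
  apply hne
  apply Subtype.ext
  have hv : v ∈ IsInj R := down_IsInj R _ hinj v (hvi.trans (hu i.1))
  have hi : a i.1 = b := i.2
  have hj : a j.1 = b := j.2
  have key : ∀ l : L, a l = b → v ≤ u l → v ∈ meets (R l b) := by
    intro l hl hvl
    rw [← hl]
    exact down_meets _ _ (ha l) _ hvl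
  have e1 : v ∈ meets (R i.1 b) := key _ hi hvi
  have e2 : v ∈ meets (R j.1 b) := key _ hj hvj
  exact IsInj.eq hv e1 e2

theorem fiber {P X L : Type} [Preorder P] {m : Cardinal.{0}} (hm : ℵ₀ ≤ m) (hP : #P ≤ m)
    (hL : #L ≤ m) (hX : #X = Order.succ m) (p : P) :
    p ∈ fall fun R : X → L → Set P => fimp (IsFun R)
      (fex fun l => FullSize fun x => meets (R x l)) := by
  intro R
  refine mem_fimp.2 fun q _ hfun => ?_
  have h1 : ∀ x : X, ∃ u ≤ q, ∃ l, u ∈ meets (R x l) := fun x => IsFun.total hfun x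
  choose u hu l hl using h1
  have hreg : (Order.succ m).IsRegular := Cardinal.isRegular_succ hm
  obtain ⟨⟨v, b⟩, hb⟩ := Cardinal.infinite_pigeonhole_card (fun x => (u x, l x)) (Order.succ m)
    hX.ge (hm.trans (Order.le_succ m)) (by
      rw [hreg.cof_ord, Cardinal.mk_prod, Cardinal.lift_id, Cardinal.lift_id, Order.lt_succ_iff]
      exact (mul_le_mul' hP hL).trans (Cardinal.mul_eq_self hm).le)
  rw [← hX] at hb
  obtain ⟨⟨g, hg⟩⟩ := hb
  have hgv : ∀ x, u (g x).1 = v ∧ l (g x).1 = b := by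
    intro x
    have h2 := (g x).2
    simp only [mem_preimage, mem_singleton_iff, Prod.mk.injEq] at h2
    exact h2
  have hne : Nonempty X := by
    rw [← Cardinal.mk_ne_zero_iff, hX]
    exact (Order.succ_ne_bot m)
  obtain ⟨x0⟩ := hne
  have hvq : v ≤ q := by
    rw [← (hgv x0).1]
    exact hu _
  refine ⟨v, hvq, mem_fex_of_mem b (down_fex _) ?_⟩
  refine mem_fex_of_mem (fun x y => {_r | y = (g x).1}) ?_ ?_
  · exact down_fand (down_IsFun _) (down_fand (down_IsInj _)
      (down_fall fun _ => down_fall fun _ => down_fimp _ _))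
  · refine ⟨⟨fun x => ?_, fun x y y' => ?_⟩, fun x x' y => ?_, fun x y => ?_⟩
    · exact mem_fex_of_mem (g x).1 (down_meets _) (meets_of_mem rfl)
    · refine mem_fimp.2 fun r _ h => ⟨r, le_rfl, ?_⟩
      obtain ⟨_, _, _, h1, _⟩ := h.1 r le_rfl
      obtain ⟨_, _, _, h2, _⟩ := h.2 r le_rfl
      show y = y'
      rw [h1, h2]
    · refine mem_fimp.2 fun r _ h => ⟨r, le_rfl, ?_⟩
      obtain ⟨_, _, _, h1, _⟩ := h.1 r le_rfl
      obtain ⟨_, _, _, h2, _⟩ := h.2 r le_rfl
      show x = x'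
      exact hg (Subtype.ext (h1.symm.trans h2))
    · refine mem_fimp.2 fun r hr h => ⟨r, le_rfl, ?_⟩
      obtain ⟨_, _, _, h1, _⟩ := h r le_rfl
      rw [h1]
      have h2 := hl (g x).1
      rw [(hgv x).2] at h2
      refine down_meets _ _ h2 _ ?_
      rw [(hgv x).1]
      exact hr

theorem mk_CC_le {J : Type} {m : Cardinal.{0}} (hm : ℵ₀ ≤ m) (hJ : #J ≤ m)
    (hmc : m ^ (ℵ₀ : Cardinal.{0}) ≤ m) : #(CC J) ≤ m := by
  classical
  have h1 : ∀ p : CC J, ∃ e : ℕ → Option (J × Bool), ∀ x, x ∈ p.g ↔ ∃ k, e k = some x := by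
    intro p
    by_cases hne : p.g.Nonempty
    · obtain ⟨e, he⟩ := p.cnt.exists_eq_range hne
      refine ⟨fun k => some (e k), fun b => ?_⟩
      rw [he]
      simp
    · refine ⟨fun _ => none, fun b => ?_⟩
      rw [Set.not_nonempty_iff_eq_empty] at hne
      simp [hne]
  choose e he using h1
  have h2 : Function.Injective e := by
    intro p q h
    apply CC.ext
    ext x
    rw [he p x, he q x, h]
  refine (Cardinal.mk_le_of_injective h2).trans ?_
  rw [← Cardinal.power_def, Cardinal.mk_nat]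
  refine (Cardinal.power_le_power_right ?_).trans hmc
  rw [Cardinal.mk_option]
  exact (add_le_add (mk_prod_bool_le hm hJ) (Cardinal.one_le_aleph0.trans hm)).trans
    (Cardinal.add_eq_self hm).le

/-- Some forcing notion forces the combinatorial statement. -/
theorem exists_forcing : ∃ (P : Type) (_ : Preorder P) (K X L : Type), Nonempty P ∧
    ∀ p : P, p ∈ NoLongChainN P K X L := by
  have hc0 : ℵ₀ ≤ (𝔠 : Cardinal.{0}) := aleph0_le_continuum
  obtain ⟨m, hst, hcof, hlt⟩ := exists_strongLimit.{0} hc0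
  let k : Cardinal.{0} := Order.succ 𝔠
  have hk𝔠 : 𝔠 ≤ k := Order.le_succ _
  have hk0 : ℵ₀ ≤ k := hc0.trans hk𝔠
  have hm0 : ℵ₀ ≤ m := hk0.trans hlt.le
  have hreg : k.IsRegular := Cardinal.isRegular_succ hc0
  let K : Type := k.ord.ToType
  let M : Type := m.ord.ToType
  let X : Type := (Order.succ m).out
  let L : Type := (Order.succ k).out
  let Θ : Type := Set ℕ
  have hKk : #K = k := Cardinal.mk_ord_toType k
  have hMm : #M = m := Cardinal.mk_ord_toType m
  have hXm : #X = Order.succ m := Cardinal.mk_out _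
  have hLk : #L = Order.succ k := Cardinal.mk_out _
  have hΘ : #Θ = 𝔠 := by
    show #(Set ℕ) = 𝔠
    rw [Cardinal.mk_set, Cardinal.mk_nat, Cardinal.two_power_aleph0]
  have hmc : m ^ (𝔠 : Cardinal.{0}) ≤ m := power_le_of_lt_cof hst (by
    rw [hcof]; exact Order.lt_succ _)
  have hm0c : m ^ (ℵ₀ : Cardinal.{0}) ≤ m := power_le_of_lt_cof hst (by
    rw [hcof]; exact hc0.trans_lt (Order.lt_succ _))
  have hmk : Order.succ m ≤ m ^ k := by
    refine Order.succ_le_of_lt ?_
    have h := Cardinal.lt_power_cof_ord hm0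
    rw [hcof] at h
    exact h
  have h2k : (2 : Cardinal.{0}) ^ ((2 : Cardinal.{0}) ^ k) ≤ m :=
    (hst.isStrongPrelimit (hst.isStrongPrelimit hlt)).le
  have hI : #(K × ℕ) ≤ k := by
    rw [Cardinal.mk_prod, Cardinal.lift_id, Cardinal.lift_id, hKk, Cardinal.mk_nat]
    exact (mul_le_mul' le_rfl hk0).trans (Cardinal.mul_eq_self hk0).le
  have hJ : #(M × K) ≤ m := by
    rw [Cardinal.mk_prod, Cardinal.lift_id, Cardinal.lift_id, hKk, hMm]
    exact (mul_le_mul' le_rfl hlt.le).trans (Cardinal.mul_eq_self hm0).le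
  have hP : #(PP (K × ℕ) (M × K)) ≤ m := by
    show #(FC (K × ℕ) × CC (M × K)) ≤ m
    rw [Cardinal.mk_prod, Cardinal.lift_id, Cardinal.lift_id]
    exact (mul_le_mul' ((mk_FC_le hk0 hI).trans hlt.le) (mk_CC_le hm0 hJ hm0c)).trans
      (Cardinal.mul_eq_self hm0).le
  have hL : #L ≤ m := by
    rw [hLk]
    exact (Order.succ_le_of_lt (Cardinal.cantor k)).trans (hst.isStrongPrelimit hlt).le
  have hLong : Long K := by
    refine ⟨?_, fun a => ?_, fun s hs => ?_⟩
    · rw [hKk]
      exact not_le.2 (Order.lt_succ _)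
    · exact Order.lt_succ_iff.1 (Cardinal.mk_Iio_toType_ord_lt a)
    · refine bdd_of_lt_cof hk0 ?_
      rw [hreg.cof_ord]
      exact hs.trans_lt (Order.lt_succ _)
  obtain ⟨c⟩ : Nonempty (K ≃ K × K) := by
    rw [← Cardinal.eq, Cardinal.mk_prod, Cardinal.lift_id, hKk]
    exact (Cardinal.mul_eq_self hk0).symm
  obtain ⟨⟨φ, hφ⟩⟩ : Nonempty (X ↪ (K → M)) := by
    rw [← Cardinal.le_def, hXm, ← Cardinal.power_def, hKk, hMm]
    exact hmk
  refine ⟨PP (K × ℕ) (M × K), inferInstance, K, X, L, inferInstance, fun p => ?_⟩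
  refine ⟨real_onto hk0 (succ_power_aleph0 hc0 (by simp)) hKk p, real_inj p,
    pow_inj ?_ c c.surjective φ hφ p, ?_, large hk𝔠 hKk hLk p, fiber hm0 hP hL hXm p⟩
  · rw [hKk]
    exact not_le.2 (hc0.trans_lt (Order.lt_succ _))
  · exact no_chain hLong hΘ hk𝔠 hI hKk.le h2k hP hmc (by rw [hXm]; exact Order.lt_succ m) p

end Pool.Agent.TH785.WC
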